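import Mathlib
import Pool.Graph.R_seed8.W184.Sub
import Pool.Graph.R_seed8.H983R4.LH.P1

set_option autoImplicit false

/-!
# A division lemma

If `G` and `h` are analytic in a disc, `G` is bounded there and not small at the centre, then a
bound for `h G` in the disc gives a bound for `h` in smaller discs.
-/

namespace Pool.Agent.H16.DM

open Complex Metric Set MeasureTheory Filter Topology
open scoped ENNReal

theorem lint_ball (u : ℂ → ℝ≥0∞) (hu : Measurable u) (c : ℂ) (R : ℝ) :
    ∫⁻ w in ball c R, u w = ∫⁻ r in Ioo (0:ℝ) R, ENNReal.ofReal r * ∫⁻ θ in Ioo (-Real.pi) Real.pi, u (circleMap c r θ) := by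
  have h0 : ∫⁻ w in ball c R, u w = ∫⁻ w in ball (0:ℂ) R, u (c + w) := by
    rw [← lintegral_indicator measurableSet_ball, ← lintegral_indicator measurableSet_ball,
      ← lintegral_add_left_eq_self _ c]
    apply lintegral_congr
    intro w
    by_cases h : w ∈ ball (0:ℂ) R
    · rw [indicator_of_mem h, indicator_of_mem]
      rw [mem_ball, dist_eq_norm, add_sub_cancel_left]
      rwa [mem_ball, dist_zero_right] at h
    · rw [indicator_of_notMem h, indicator_of_notMem]
      intro h'
      apply h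
      rw [mem_ball, dist_eq_norm, add_sub_cancel_left] at h'
      rwa [mem_ball, dist_zero_right]
  rw [h0, ← lintegral_indicator measurableSet_ball, ← Complex.lintegral_comp_polarCoord_symm]
  have htar : polarCoord.target = Ioi (0:ℝ) ×ˢ Ioo (-Real.pi) Real.pi := rfl
  have h1 : ∀ p : ℝ × ℝ, p ∈ Ioi (0:ℝ) ×ˢ Ioo (-Real.pi) Real.pi → ENNReal.ofReal p.1 •
      (ball (0:ℂ) R).indicator (fun w => u (c + w)) (Complex.polarCoord.symm p) =
      (Ioo (0:ℝ) R ×ˢ Ioo (-Real.pi) Real.pi).indicator (fun p : ℝ × ℝ => ENNReal.ofReal p.1 * u (circleMap c p.1 p.2)) p := by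
    rintro ⟨ρ, θ⟩ ⟨hρ, hθ⟩
    have hρ0 : 0 < ρ := hρ
    have hn : ‖Complex.polarCoord.symm (ρ, θ)‖ = ρ := by
      rw [Complex.norm_polarCoord_symm]; exact abs_of_pos hρ0
    have he : c + Complex.polarCoord.symm (ρ, θ) = circleMap c ρ θ := by
      rw [Complex.polarCoord_symm_apply, circleMap, Complex.exp_mul_I]
      simp
    by_cases hR : ρ < R
    · rw [indicator_of_mem (by rw [mem_ball, dist_zero_right, hn]; exact hR),
        indicator_of_mem (show (ρ, θ) ∈ Ioo (0:ℝ) R ×ˢ Ioo (-Real.pi) Real.pi from ⟨⟨hρ0, hR⟩, hθ⟩)]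
      simp only [smul_eq_mul]
      rw [he]
    · rw [indicator_of_notMem (by rw [mem_ball, dist_zero_right, hn]; exact hR),
        indicator_of_notMem (show (ρ, θ) ∉ Ioo (0:ℝ) R ×ˢ Ioo (-Real.pi) Real.pi from fun h => hR h.1.2), smul_zero]
  rw [htar, setLIntegral_congr_fun (measurableSet_Ioi.prod measurableSet_Ioo) h1,
    setLIntegral_indicator (measurableSet_Ioo.prod measurableSet_Ioo)]
  have h2 : (Ioo (0:ℝ) R ×ˢ Ioo (-Real.pi) Real.pi) ∩ (Ioi (0:ℝ) ×ˢ Ioo (-Real.pi) Real.pi) =
      Ioo (0:ℝ) R ×ˢ Ioo (-Real.pi) Real.pi := by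
    apply inter_eq_left.2
    rintro ⟨ρ, θ⟩ ⟨hρ, hθ⟩
    exact ⟨hρ.1, hθ⟩
  rw [h2, Measure.volume_eq_prod, setLIntegral_prod]
  · apply lintegral_congr
    intro r
    rw [lintegral_const_mul' _ _ ENNReal.ofReal_ne_top]
  · apply Measurable.aemeasurable
    apply Measurable.mul
    · exact measurable_fst.ennreal_ofReal
    · apply hu.comp
      have : Continuous (fun p : ℝ × ℝ => circleMap c p.1 p.2) := by
        unfold circleMap; fun_prop
      exact this.measurable

theorem int_circle {g : ℂ → ℝ} {c : ℂ} {r : ℝ} :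
    ∫ θ in Ioo (-Real.pi) Real.pi, g (circleMap c r θ) = 2 * Real.pi * Real.circleAverage g c r := by
  have hpi := Real.pi_pos
  have h := Real.circleAverage_eq_integral_add (f := g) (c := c) (R := r) (-Real.pi)
  rw [intervalIntegral.integral_comp_add_right (fun θ => g (circleMap c r θ))] at h
  have e1 : (0:ℝ) + -Real.pi = -Real.pi := by ring
  have e2 : 2 * Real.pi + -Real.pi = Real.pi := by ring
  rw [e1, e2, intervalIntegral.integral_of_le (by linarith), integral_Ioc_eq_integral_Ioo] at h
  rw [h, smul_eq_mul]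
  field_simp

theorem lint_r {R : ℝ} (hR : 0 < R) (a : ℝ≥0∞) (ha : a ≠ ⊤) : ∫⁻ r in Ioo (0:ℝ) R, ENNReal.ofReal r * a =
    ENNReal.ofReal (R ^ 2 / 2) * a := by
  rw [lintegral_mul_const' _ _ ha]
  congr 1
  rw [restrict_Ioo_eq_restrict_Ioc, ← ofReal_integral_eq_lintegral_ofReal]
  · rw [← intervalIntegral.integral_of_le hR.le, integral_id]
    congr 1; ring
  · exact (continuous_id.integrableOn_Icc.mono_set Ioc_subset_Icc_self)
  · filter_upwards [ae_restrict_mem measurableSet_Ioc] with x hx
    exact hx.1.le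

theorem intOn_circle {g : ℂ → ℝ} {c : ℂ} {r : ℝ} (h : CircleIntegrable g c r) :
    IntegrableOn (fun θ => g (circleMap c r θ)) (Ioo (-Real.pi) Real.pi) := by
  have hpi := Real.pi_pos
  have h1 : Function.Periodic (fun θ => g (circleMap c r θ)) (2 * Real.pi) := by
    intro θ
    simp only
    rw [periodic_circleMap]
  have h2 := h1.intervalIntegrable (t := 0) (by positivity) (by
    rw [zero_add]
    exact h) (-Real.pi) Real.pi
  exact ((intervalIntegrable_iff_integrableOn_Ioc_of_le (by linarith)).1 h2).mono_set Ioo_subset_Ioc_self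

/-- superharmonic upper bound -/
theorem area_upper {G : ℂ → ℂ} {c : ℂ} {R A : ℝ} (hR : 0 < R) (hG : AnalyticOnNhd ℂ G (closedBall c R))
    (hGm : Measurable G)
    (h0 : G c ≠ 0) (hA : ∀ z ∈ closedBall c R, Real.log ‖G z‖ ≤ A) :
    ∫⁻ w in ball c R, ENNReal.ofReal (A - Real.log ‖G w‖) ≤ ENNReal.ofReal (Real.pi * R ^ 2 * (A - Real.log ‖G c‖)) := by
  have hpi := Real.pi_pos
  have hA0 : 0 ≤ A - Real.log ‖G c‖ := by
    have := hA c (mem_closedBall_self hR.le)
    linarith
  have hmeas : Measurable (fun w => ENNReal.ofReal (A - Real.log ‖G w‖)) := by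
    apply Measurable.ennreal_ofReal
    apply Measurable.const_sub
    exact Real.measurable_log.comp hGm.norm
  rw [lint_ball _ hmeas]
  have hinner : ∀ r ∈ Ioo (0:ℝ) R, ENNReal.ofReal r * ∫⁻ θ in Ioo (-Real.pi) Real.pi,
      ENNReal.ofReal (A - Real.log ‖G (circleMap c r θ)‖) ≤
      ENNReal.ofReal r * ENNReal.ofReal (2 * Real.pi * (A - Real.log ‖G c‖)) := by
    intro r hr
    gcongr
    have hsub : closedBall c r ⊆ closedBall c R := closedBall_subset_closedBall hr.2.le
    have hGr : AnalyticOnNhd ℂ G (closedBall c r) := hG.mono hsub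
    have hrr : |r| = r := abs_of_pos hr.1
    have hci : CircleIntegrable (fun z => Real.log ‖G z‖) c r := by
      have hm : MeromorphicOn G (sphere c |r|) := by
        rw [hrr]
        exact (hGr.mono sphere_subset_closedBall).meromorphicOn
      exact hm.circleIntegrable_log_norm
    have hIO := intOn_circle hci
    have hIc : IntegrableOn (fun _ : ℝ => A) (Ioo (-Real.pi) Real.pi) := integrableOn_const (by simp)
    have hIO2 : IntegrableOn (fun θ => A - Real.log ‖G (circleMap c r θ)‖) (Ioo (-Real.pi) Real.pi) :=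
      Integrable.sub hIc hIO
    rw [← ofReal_integral_eq_lintegral_ofReal hIO2]
    · apply ENNReal.ofReal_le_ofReal
      rw [integral_sub hIc hIO, int_circle (g := fun z => Real.log ‖G z‖)]
      have h1 := Pool.Agent.W184.log_le_circleAverage hr.1 hGr h0
      rw [setIntegral_const, Real.volume_real_Ioo_of_le (by linarith), smul_eq_mul]
      have h2 : Real.circleAverage (Real.log ‖G ·‖) c r = Real.circleAverage (fun z => Real.log ‖G z‖) c r := rfl
      rw [h2] at h1
      nlinarith
    · filter_upwards with θ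
      have := hA (circleMap c r θ) (hsub (circleMap_mem_closedBall c hr.1.le θ))
      simp only [Pi.zero_apply]
      linarith
  refine (setLIntegral_mono' measurableSet_Ioo hinner).trans ?_
  rw [lint_r hR _ ENNReal.ofReal_ne_top, ← ENNReal.ofReal_mul (by positivity)]
  apply ENNReal.ofReal_le_ofReal
  apply le_of_eq
  ring

/-- subharmonic lower bound -/
theorem area_lower {h : ℂ → ℂ} {c : ℂ} {R : ℝ} (hR : 0 < R) (hh : AnalyticOnNhd ℂ h (closedBall c R)) (hhm : Measurable h) :
    ENNReal.ofReal (Real.pi * R ^ 2 * Real.posLog ‖h c‖) ≤ ∫⁻ w in ball c R, ENNReal.ofReal (Real.posLog ‖h w‖) := by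
  have hpi := Real.pi_pos
  have hmeas : Measurable (fun w => ENNReal.ofReal (Real.posLog ‖h w‖)) := by
    apply Measurable.ennreal_ofReal
    unfold Real.posLog
    exact measurable_const.max (Real.measurable_log.comp hhm.norm)
  rw [lint_ball _ hmeas]
  have hinner : ∀ r ∈ Ioo (0:ℝ) R, ENNReal.ofReal r * ENNReal.ofReal (2 * Real.pi * Real.posLog ‖h c‖) ≤
      ENNReal.ofReal r * ∫⁻ θ in Ioo (-Real.pi) Real.pi, ENNReal.ofReal (Real.posLog ‖h (circleMap c r θ)‖) := by
    intro r hr
    gcongr
    have hsub : closedBall c r ⊆ closedBall c R := closedBall_subset_closedBall hr.2.le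
    have hGr : AnalyticOnNhd ℂ h (closedBall c r) := hh.mono hsub
    have hrr : |r| = r := abs_of_pos hr.1
    have hci : CircleIntegrable (fun z => Real.posLog ‖h z‖) c r := by
      have hm : MeromorphicOn h (sphere c |r|) := by
        rw [hrr]
        exact (hGr.mono sphere_subset_closedBall).meromorphicOn
      exact hm.circleIntegrable_posLog_norm
    have hIO := intOn_circle hci
    rw [← ofReal_integral_eq_lintegral_ofReal hIO]
    · apply ENNReal.ofReal_le_ofReal
      rw [int_circle (g := fun z => Real.posLog ‖h z‖)]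
      have h1 := Pool.Agent.H983R4.LH.posLog_submean hr.1 hGr
      have : 0 ≤ 2 * Real.pi := by positivity
      exact mul_le_mul_of_nonneg_left h1 this
    · filter_upwards with θ
      exact Real.posLog_nonneg
  refine le_trans ?_ (setLIntegral_mono' measurableSet_Ioo hinner)
  rw [lint_r hR _ ENNReal.ofReal_ne_top, ← ENNReal.ofReal_mul (by positivity)]
  apply ENNReal.ofReal_le_ofReal
  apply le_of_eq
  ring

/-- the division lemma -/
theorem division {G h : ℂ → ℂ} {c s : ℂ} {R ρ A B : ℝ} (hρ : 0 < ρ) (hsub : closedBall s ρ ⊆ ball c R)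
    (hG : AnalyticOnNhd ℂ G (closedBall c R)) (hh : AnalyticOnNhd ℂ h (closedBall c R))
    (hGm : Measurable G) (hhm : Measurable h)
    (h0 : G c ≠ 0) (hA0 : 0 ≤ A) (hA : ∀ z ∈ closedBall c R, Real.log ‖G z‖ ≤ A)
    (hB : ∀ z ∈ closedBall c R, ‖h z * G z‖ ≤ B) :
    Real.posLog ‖h s‖ ≤ Real.posLog B + R ^ 2 / ρ ^ 2 * (A - Real.log ‖G c‖) := by
  have hpi := Real.pi_pos
  have hR : 0 < R := by
    have : s ∈ ball c R := hsub (mem_closedBall_self hρ.le)
    exact pos_of_mem_ball this
  have hsub2 : closedBall s ρ ⊆ closedBall c R := hsub.trans ball_subset_closedBall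
  have hv0 : 0 ≤ A - Real.log ‖G c‖ := by
    have := hA c (mem_closedBall_self hR.le)
    linarith
  have h1 := area_lower hρ (hh.mono hsub2) hhm
  have h2 := area_upper hR hG hGm h0 hA
  -- G is nonzero almost everywhere on the ball
  have hne : ∀ᵐ w ∂(volume.restrict (ball c R)), G w ≠ 0 := by
    have h3 := (hG.mono ball_subset_closedBall).eqOn_zero_or_eventually_ne_zero_of_preconnected
      (convex_ball c R).isPreconnected
    rcases h3 with h3 | h3
    · exact absurd (h3 (mem_ball_self hR)) h0
    · exact ae_restrict_le_codiscreteWithin measurableSet_ball h3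
  have hne' : ∀ᵐ w ∂(volume.restrict (ball s ρ)), G w ≠ 0 :=
    ae_mono (Measure.restrict_mono (ball_subset_closedBall.trans hsub) le_rfl) hne
  have h3 : ∫⁻ w in ball s ρ, ENNReal.ofReal (Real.posLog ‖h w‖) ≤
      ∫⁻ w in ball s ρ, (ENNReal.ofReal (Real.posLog B) + ENNReal.ofReal (A - Real.log ‖G w‖)) := by
    apply lintegral_mono_ae
    filter_upwards [hne', ae_restrict_mem measurableSet_ball] with w hw hwb
    have hwR : w ∈ closedBall c R := hsub2 (ball_subset_closedBall hwb)
    have h4 := hA w hwR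
    rw [← ENNReal.ofReal_add Real.posLog_nonneg (by linarith)]
    apply ENNReal.ofReal_le_ofReal
    have hGw : 0 < ‖G w‖ := norm_pos_iff.2 hw
    have h5 := hB w hwR
    rw [norm_mul] at h5
    have hB0 : 0 ≤ B := le_trans (by positivity) h5
    rcases eq_or_ne (h w) 0 with h6 | h6
    · rw [h6, norm_zero, Real.posLog_zero]
      have : 0 ≤ Real.posLog B := Real.posLog_nonneg
      linarith
    · have hhw : 0 < ‖h w‖ := norm_pos_iff.2 h6
      have hBp : 0 < B := lt_of_lt_of_le (by positivity) h5
      have h7 : Real.log ‖h w‖ + Real.log ‖G w‖ ≤ Real.log B := by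
        rw [← Real.log_mul hhw.ne' hGw.ne']
        exact Real.log_le_log (by positivity) h5
      rw [Real.posLog_apply, max_le_iff]
      have h8 : 0 ≤ Real.posLog B := Real.posLog_nonneg
      have h9 : Real.log B ≤ Real.posLog B := by rw [Real.posLog_apply]; exact le_max_right _ _
      constructor <;> linarith
  have h4 : ∫⁻ w in ball s ρ, (ENNReal.ofReal (Real.posLog B) + ENNReal.ofReal (A - Real.log ‖G w‖)) ≤
      ENNReal.ofReal (Real.pi * ρ ^ 2 * Real.posLog B) + ENNReal.ofReal (Real.pi * R ^ 2 * (A - Real.log ‖G c‖)) := by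
    rw [lintegral_add_left measurable_const]
    apply add_le_add
    · rw [setLIntegral_const, Complex.volume_ball, mul_comm]
      rw [← ENNReal.ofReal_pow hρ.le, ← ENNReal.ofReal_coe_nnreal, ← ENNReal.ofReal_mul (by positivity),
        ← ENNReal.ofReal_mul (by positivity)]
      apply ENNReal.ofReal_le_ofReal
      apply le_of_eq
      push_cast
      simp only [NNReal.coe_real_pi]
      ring
    · refine le_trans ?_ h2
      apply lintegral_mono_set
      exact ball_subset_closedBall.trans hsub
  have h5 := (h1.trans h3).trans h4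
  rw [← ENNReal.ofReal_add (by have : 0 ≤ Real.posLog B := Real.posLog_nonneg
                               positivity) (by positivity)] at h5
  rw [ENNReal.ofReal_le_ofReal_iff (by
    have : 0 ≤ Real.posLog B := Real.posLog_nonneg
    positivity)] at h5
  have h6 : 0 < Real.pi * ρ ^ 2 := by positivity
  have e : Real.pi * ρ ^ 2 * Real.posLog B + Real.pi * R ^ 2 * (A - Real.log ‖G c‖) =
      Real.pi * ρ ^ 2 * (Real.posLog B + R ^ 2 / ρ ^ 2 * (A - Real.log ‖G c‖)) := by
    field_simp
  rw [e] at h5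
  exact le_of_mul_le_mul_left h5 h6

end Pool.Agent.H16.DM
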