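import Pool.Agent.H16.DM.D9
import Pool.Agent.H16.MM.G10

set_option autoImplicit false

/-!
# Conclusion
-/

namespace Pool.Agent.H16.DM

open Complex Metric Set Filter Topology
open Pool.Agent.W173.OS (LH)

theorem zeta_neg (σ t : ℝ) : ‖riemannZeta (σ + (-t : ℝ) * I)‖ = ‖riemannZeta (σ + t * I)‖ := by
  have e : (σ : ℂ) + (-t : ℝ) * I = (starRingEnd ℂ) (σ + t * I) := by
    simp [Complex.conj_ofReal]
  rw [e, riemannZeta_conj, Complex.norm_conj]

/-- from large `t` to `|t| ≥ 1` -/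
theorem line_one {σ β C T₀ : ℝ} (hβ : 0 ≤ β)
    (h : ∀ t : ℝ, T₀ ≤ t → ‖riemannZeta (σ + t * I)‖ ≤ C * (1 + t) ^ β) :
    ∃ C' : ℝ, ∀ t : ℝ, 1 ≤ |t| → ‖riemannZeta (σ + t * I)‖ ≤ C' * |t| ^ β := by
  have hcont : ContinuousOn (fun t : ℝ => riemannZeta (σ + t * I)) (Icc 1 (max T₀ 1)) := by
    intro t ht
    have h1 : (σ : ℂ) + t * I ≠ 1 := by
      intro h
      have := congrArg Complex.im h
      simp at this
      linarith [ht.1]
    apply ContinuousAt.continuousWithinAt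
    exact ContinuousAt.comp (f := fun t : ℝ => (σ : ℂ) + t * I) (differentiableAt_riemannZeta h1).continuousAt
      (by fun_prop)
  obtain ⟨K, hK⟩ := isCompact_Icc.exists_bound_of_continuousOn hcont
  have key : ∀ t : ℝ, 1 ≤ t → ‖riemannZeta (σ + t * I)‖ ≤ (|K| + |C| * 2 ^ β) * t ^ β := by
    intro t ht
    have h1 : 1 ≤ t ^ β := Real.one_le_rpow ht hβ
    have h2 : 0 ≤ |C| * 2 ^ β := by positivity
    rcases le_or_gt t (max T₀ 1) with h3 | h3
    · have h4 := hK t ⟨ht, h3⟩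
      have h5 := le_abs_self K
      have h6 := abs_nonneg K
      nlinarith
    · have h4 := h t ((le_max_left _ _).trans h3.le)
      calc ‖riemannZeta (σ + t * I)‖ ≤ C * (1 + t) ^ β := h4
        _ ≤ |C| * (2 * t) ^ β := by
            apply mul_le_mul (le_abs_self C) _ (by positivity) (abs_nonneg C)
            exact Real.rpow_le_rpow (by linarith) (by linarith) hβ
        _ = |C| * 2 ^ β * t ^ β := by rw [Real.mul_rpow (by norm_num) (by linarith)]; ring
        _ ≤ _ := by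
            apply mul_le_mul_of_nonneg_right _ (by positivity)
            linarith [abs_nonneg K]
  refine ⟨|K| + |C| * 2 ^ β, fun t ht => ?_⟩
  rcases le_or_gt 0 t with h0 | h0
  · rw [abs_of_nonneg h0] at ht ⊢
    exact key t ht
  · rw [abs_of_neg h0] at ht ⊢
    rw [← zeta_neg]
    exact key (-t) ht

/-- from `|t| ≥ 1` to all `t` -/
theorem line_all {σ β C : ℝ} (hσ : σ ≠ 1) (hβ : 0 ≤ β)
    (h : ∀ t : ℝ, 1 ≤ |t| → ‖riemannZeta (σ + t * I)‖ ≤ C * |t| ^ β) :
    ∃ C' : ℝ, ∀ t : ℝ, ‖riemannZeta (σ + t * I)‖ ≤ C' * (1 + |t|) ^ β := by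
  have hcont : ContinuousOn (fun t : ℝ => riemannZeta (σ + t * I)) (Icc (-1) 1) := by
    intro t ht
    have h1 : (σ : ℂ) + t * I ≠ 1 := by
      intro h
      have := congrArg Complex.re h
      simp at this
      exact hσ this
    apply ContinuousAt.continuousWithinAt
    exact ContinuousAt.comp (f := fun t : ℝ => (σ : ℂ) + t * I) (differentiableAt_riemannZeta h1).continuousAt
      (by fun_prop)
  obtain ⟨K, hK⟩ := isCompact_Icc.exists_bound_of_continuousOn hcont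
  refine ⟨|K| + |C|, fun t => ?_⟩
  have h1 : 1 ≤ (1 + |t|) ^ β := Real.one_le_rpow (by linarith [abs_nonneg t]) hβ
  have hK0 := abs_nonneg K
  have hC0 := abs_nonneg C
  rcases le_or_gt 1 |t| with h3 | h3
  · calc ‖riemannZeta (σ + t * I)‖ ≤ C * |t| ^ β := h t h3
      _ ≤ |C| * (1 + |t|) ^ β := by
          apply mul_le_mul (le_abs_self C) _ (by positivity) (abs_nonneg C)
          exact Real.rpow_le_rpow (by positivity) (by linarith) hβ
      _ ≤ _ := by
          apply mul_le_mul_of_nonneg_right _ (by positivity)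
          linarith
  · have h4 := hK t (abs_le.1 h3.le)
    have h5 := le_abs_self K
    nlinarith

/-- the single function bound -/
theorem single {r : ℕ} (hr : 1 ≤ r) {f : ArithmeticFunction ℝ} (hf : DivLike r f)
    {P : Polynomial ℝ} {θ C₀ : ℝ} (hθ : 1 / 2 ≤ θ) (hP : ∀ x : ℝ, 1 ≤ x →
      |∑ n ∈ Finset.Icc 1 ⌊x⌋₊, f n - x * P.eval (Real.log x)| ≤ C₀ * x ^ θ)
    {σ : ℝ} (hσ : θ < σ) :
    ∃ C : ℝ, ∀ t : ℝ, 1 ≤ |t| → ‖riemannZeta (σ + t * I)‖ ≤ C * |t| ^ (1 / r : ℝ) := by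
  have hg1 : (mR ^ r * f) 1 ≠ 0 := by
    have := ((mRpow_mult r).mul hf.mult).map_one
    rw [this]; exact one_ne_zero
  obtain ⟨C, T₀, hC0, hC⟩ := converse hr (zR_mR r f) (GS_of hf) hg1 (hf.small (1 / 2) (by norm_num)) hθ hP hσ
  exact line_one (by positivity) hC

/-- LH from many functions -/
theorem LH_of (h : ∀ ε : ℝ, 0 < ε → ∀ R : ℕ, ∃ r : ℕ, R ≤ r ∧ ∃ (f : ArithmeticFunction ℝ) (P : Polynomial ℝ),
    DivLike r f ∧ ∃ C : ℝ, ∀ x : ℝ, 1 ≤ x →
      |∑ n ∈ Finset.Icc 1 ⌊x⌋₊, f n - x * P.eval (Real.log x)| ≤ C * x ^ (1 / 2 + ε)) : LH := by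
  intro ε hε
  set δ : ℝ := min (ε / 8) (1 / 8) with hδ
  have hδ0 : 0 < δ := lt_min (by linarith) (by norm_num)
  have hδ1 : δ ≤ 1 / 8 := min_le_right _ _
  have hδε : δ ≤ ε / 8 := min_le_left _ _
  obtain ⟨N, hN⟩ := exists_nat_gt (2 / ε)
  obtain ⟨r, hr, f, P, hf, C₀, hC₀⟩ := h (δ / 2) (by linarith) (N + 1)
  have hr1 : 1 ≤ r := by omega
  have hr0 : (0:ℝ) < r := by exact_mod_cast hr1
  obtain ⟨C, hC⟩ := single hr1 hf (θ := 1 / 2 + δ / 2) (by linarith) hC₀ (σ := 1 / 2 + δ) (by linarith)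
  obtain ⟨C', hC'⟩ := line_all (by linarith) (by positivity) hC
  obtain ⟨C'', hC''⟩ := Pool.Agent.H16.MM.to_crit (β := 1 / r) (δ := δ) (by positivity) hδ0 (by linarith) ⟨C', hC'⟩
  refine ⟨|C''|, fun t => ?_⟩
  have h1 : (1:ℝ) / r + 4 * δ ≤ ε := by
    have h2 : (1:ℝ) / r ≤ ε / 2 := by
      rw [div_le_iff₀ hr0]
      have h3 : (N:ℝ) + 1 ≤ r := by exact_mod_cast hr
      rw [div_lt_iff₀ hε] at hN
      nlinarith
    linarith
  have hT : 1 ≤ 1 + |t| := by linarith [abs_nonneg t]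
  calc ‖riemannZeta (1 / 2 + t * I)‖ ≤ C'' * (1 + |t|) ^ (1 / r + 4 * δ) := hC'' t
    _ ≤ |C''| * (1 + |t|) ^ ε := by
        apply mul_le_mul (le_abs_self _) (Real.rpow_le_rpow_of_exponent_le hT h1) (by positivity) (abs_nonneg _)

/-- forward -/
theorem forward' (h : LH) {r : ℕ} {f : ArithmeticFunction ℝ} (hf : DivLike r f) :
    ∃ P : Polynomial ℝ, ∀ ε : ℝ, 0 < ε → ∃ C : ℝ, ∀ x : ℝ, 1 ≤ x →
      |∑ n ∈ Finset.Icc 1 ⌊x⌋₊, f n - x * P.eval (Real.log x)| ≤ C * x ^ (1 / 2 + ε) :=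
  forward h (zR_mR r f) (GS_of hf) (hf.small (1 / 2) (by norm_num))

/-! ### Examples -/

/-- `d(n)^m` -/
def dpow (m : ℕ) (hm : 1 ≤ m) : ArithmeticFunction ℝ := ⟨fun n => (n.divisors.card : ℝ) ^ m, by
  simp; omega⟩

theorem dpow_divLike (m : ℕ) (hm : 1 ≤ m) : DivLike (2 ^ m) (dpow m hm) where
  mult := by
    refine ⟨by simp [dpow], fun {a b} hab => ?_⟩
    show ((a * b).divisors.card : ℝ) ^ m = (a.divisors.card : ℝ) ^ m * (b.divisors.card : ℝ) ^ m
    rw [hab.card_divisors_mul]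
    push_cast
    rw [mul_pow]
  prime := by
    refine ⟨0, fun p hp => ?_⟩
    show |((p.divisors.card : ℝ)) ^ m - ((2 ^ m : ℕ) : ℝ)| ≤ _
    rw [hp.divisors, Finset.card_pair hp.one_lt.ne]
    simp
  small := by
    intro ε hε
    obtain ⟨C, hC0, hC⟩ := card_small (ε / m) (by have : (0:ℝ) < m := by exact_mod_cast hm
                                                  positivity)
    refine ⟨C ^ m, fun n => ?_⟩
    show |(n.divisors.card : ℝ) ^ m| ≤ _
    rw [abs_of_nonneg (by positivity)]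
    have hm0 : (m : ℝ) ≠ 0 := by positivity
    calc (n.divisors.card : ℝ) ^ m ≤ (C * (n : ℝ) ^ (ε / m)) ^ m := pow_le_pow_left₀ (by positivity) (hC n) m
      _ = C ^ m * (n : ℝ) ^ ε := by
          rw [mul_pow, ← Real.rpow_natCast ((n : ℝ) ^ (ε / m)) m, ← Real.rpow_mul (by positivity), div_mul_cancel₀ _ hm0]

/-- `k^ω(n)` -/
def kom (k : ℕ) : ArithmeticFunction ℝ := ⟨fun n => if n = 0 then 0 else (k : ℝ) ^ n.primeFactors.card, by simp⟩

theorem two_pow_le {n : ℕ} (hn : n ≠ 0) : 2 ^ n.primeFactors.card ≤ n.divisors.card := by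
  rw [Nat.card_divisors hn, ← Finset.prod_const]
  apply Finset.prod_le_prod' 
  intro p hp
  have : 1 ≤ n.factorization p := by
    rw [Nat.mem_primeFactors] at hp
    exact (hp.1.dvd_iff_one_le_factorization hn).1 hp.2.1
  omega

theorem kom_divLike (k : ℕ) (hk : 1 ≤ k) : DivLike k (kom k) where
  mult := by
    refine ⟨by simp [kom], fun {a b} hab => ?_⟩
    show (if a * b = 0 then 0 else (k : ℝ) ^ (a * b).primeFactors.card) =
      (if a = 0 then 0 else (k : ℝ) ^ a.primeFactors.card) * (if b = 0 then 0 else (k : ℝ) ^ b.primeFactors.card)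
    rcases eq_or_ne a 0 with rfl | ha
    · simp
    rcases eq_or_ne b 0 with rfl | hb
    · simp
    rw [if_neg (mul_ne_zero ha hb), if_neg ha, if_neg hb, hab.primeFactors_mul,
      Finset.card_union_of_disjoint hab.disjoint_primeFactors, pow_add]
  prime := by
    refine ⟨0, fun p hp => ?_⟩
    show |(if p = 0 then 0 else (k : ℝ) ^ p.primeFactors.card) - k| ≤ _
    rw [if_neg hp.ne_zero, hp.primeFactors]
    simp
  small := by
    intro ε hε
    have hk0 : (0:ℝ) < k := by exact_mod_cast hk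
    obtain ⟨C, hC0, hC⟩ := card_small (ε / k) (by positivity)
    refine ⟨C ^ k, fun n => ?_⟩
    show |(if n = 0 then 0 else (k : ℝ) ^ n.primeFactors.card)| ≤ _
    split_ifs with hn
    · rw [abs_zero]; positivity
    rw [abs_of_nonneg (by positivity)]
    have h1 : k ^ n.primeFactors.card ≤ n.divisors.card ^ k := by
      calc k ^ n.primeFactors.card ≤ (2 ^ k) ^ n.primeFactors.card := Nat.pow_le_pow_left (Nat.lt_two_pow_self).le _
        _ = (2 ^ n.primeFactors.card) ^ k := by rw [← pow_mul, ← pow_mul, mul_comm]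
        _ ≤ _ := Nat.pow_le_pow_left (two_pow_le hn) _
    have h2 : (k : ℝ) ^ n.primeFactors.card ≤ (n.divisors.card : ℝ) ^ k := by exact_mod_cast h1
    calc (k : ℝ) ^ n.primeFactors.card ≤ (n.divisors.card : ℝ) ^ k := h2
      _ ≤ (C * (n : ℝ) ^ (ε / k)) ^ k := pow_le_pow_left₀ (by positivity) (hC n) k
      _ = C ^ k * (n : ℝ) ^ ε := by
          rw [mul_pow, ← Real.rpow_natCast ((n : ℝ) ^ (ε / k)) k, ← Real.rpow_mul (by positivity), div_mul_cancel₀ _ hk0.ne']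

end Pool.Agent.H16.DM
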