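import Pool.Graph.R_pool_sql_team_seeded_f72693b1.W173.OS.M

set_option autoImplicit false

/-!
# Removing the pole

`H(s)/(s-1)^r = ∑_{j<r} a_j D_j(s) + E(s)` with `D_j(s) = ∑ (log n)^j n^{-s}`.
-/

namespace Pool.Agent.H16.DM

open Complex Metric Set Filter Topology
open Pool.Agent.W173.OS Pool.Agent.H295R2

/-- the regular part of the zeta function at `s = 1` -/
noncomputable def R0 : ℂ → ℂ := dslope Zs 1

theorem Zs_one : Zs 1 = 1 := by
  have h1 : ContinuousAt Zs 1 := Zs_differentiable.continuous.continuousAt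
  have h2 : Tendsto Zs (𝓝[≠] 1) (𝓝 (Zs 1)) := h1.tendsto.mono_left nhdsWithin_le_nhds
  have h3 : Tendsto Zs (𝓝[≠] 1) (𝓝 1) := by
    refine riemannZeta_residue_one.congr' ?_
    filter_upwards [self_mem_nhdsWithin] with s hs
    exact Zs_eq hs
  exact tendsto_nhds_unique h2 h3

theorem R0_diff : Differentiable ℂ R0 := by
  have h : DifferentiableOn ℂ R0 univ := by
    unfold R0
    exact (Complex.differentiableOn_dslope (by simp)).mpr Zs_differentiable.differentiableOn
  exact differentiableOn_univ.mp h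

theorem R0_eq {s : ℂ} (hs : s ≠ 1) : R0 s = (Zs s - 1) / (s - 1) := by
  unfold R0
  rw [dslope_of_ne _ hs, slope_def_field, Zs_one]

theorem zeta_eq {s : ℂ} (hs : s ≠ 1) : riemannZeta s = 1 / (s - 1) + R0 s := by
  rw [R0_eq hs, ← Zs_eq hs]
  have : s - 1 ≠ 0 := sub_ne_zero.2 hs
  field_simp
  ring

/-- derivatives of `R0` -/
noncomputable def Rj (j : ℕ) (s : ℂ) : ℂ := (-1) ^ j * iteratedDeriv j R0 s

theorem Rj_diff (j : ℕ) : Differentiable ℂ (Rj j) := by
  have h : ContDiff ℂ ⊤ R0 := R0_diff.contDiff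
  have h1 : Differentiable ℂ (iteratedDeriv j R0) := h.differentiable_iteratedDeriv j (by exact_mod_cast WithTop.coe_lt_top _)
  intro s
  exact (h1 s).const_mul _

/-- the Dirichlet series of `(log n)^j` -/
noncomputable def Dj (j : ℕ) (s : ℂ) : ℂ := (j.factorial : ℂ) / (s - 1) ^ (j + 1) + Rj j s

theorem Dj_diffAt (j : ℕ) {s : ℂ} (hs : s ≠ 1) : DifferentiableAt ℂ (Dj j) s := by
  unfold Dj
  refine DifferentiableAt.add ?_ (Rj_diff j s)
  refine DifferentiableAt.div (by fun_prop) (by fun_prop) ?_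
  exact pow_ne_zero _ (sub_ne_zero.2 hs)

theorem Dj_eq_iter (j : ℕ) : ∀ s : ℂ, s ≠ 1 → (-1) ^ j * iteratedDeriv j riemannZeta s = Dj j s := by
  induction j with
  | zero =>
    intro s hs
    simp only [pow_zero, one_mul, iteratedDeriv_zero, Dj, Rj, Nat.factorial_zero, Nat.cast_one, zero_add, pow_one]
    exact zeta_eq hs
  | succ j ih =>
    intro s hs
    rw [iteratedDeriv_succ]
    have hev : iteratedDeriv j riemannZeta =ᶠ[𝓝 s] fun z => (-1) ^ j * Dj j z := by
      filter_upwards [isOpen_ne.mem_nhds hs] with z hz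
      rw [← ih z hz, ← mul_assoc, ← mul_pow]
      simp
    rw [hev.deriv_eq]
    have h1 : HasDerivAt (fun z : ℂ => (j.factorial : ℂ) / (z - 1) ^ (j + 1))
        (-((j + 1).factorial : ℂ) / (s - 1) ^ (j + 1 + 1)) s := by
      have hne : s - 1 ≠ 0 := sub_ne_zero.2 hs
      have h2 : HasDerivAt (fun z : ℂ => (z - 1) ^ (j + 1)) (((j + 1 : ℕ) : ℂ) * (s - 1) ^ j * 1) s := by
        have := (((hasDerivAt_id' s).sub_const 1).fun_pow (j + 1))
        simpa using this
      have h3 := (hasDerivAt_const s (j.factorial : ℂ)).fun_div h2 (pow_ne_zero _ hne)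
      have e : -((j + 1).factorial : ℂ) / (s - 1) ^ (j + 1 + 1) =
        (0 * (s - 1) ^ (j + 1) - (j.factorial : ℂ) * (((j + 1 : ℕ) : ℂ) * (s - 1) ^ j * 1)) / ((s - 1) ^ (j + 1)) ^ 2 := by
        rw [Nat.factorial_succ]
        push_cast
        field_simp
        ring
      rw [e]
      exact h3
    have h4 : HasDerivAt (Rj j) (-(Rj (j + 1) s)) s := by
      have h5 : DifferentiableAt ℂ (iteratedDeriv j R0) s := by
        have h : ContDiff ℂ ⊤ R0 := R0_diff.contDiff
        exact h.differentiable_iteratedDeriv j (by exact_mod_cast WithTop.coe_lt_top _) s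
      have h6 := h5.hasDerivAt.const_mul ((-1) ^ j)
      have e : -(Rj (j + 1) s) = (-1) ^ j * deriv (iteratedDeriv j R0) s := by
        unfold Rj
        rw [iteratedDeriv_succ]
        ring
      rw [e]
      exact h6
    have h7 := (h1.add h4).const_mul ((-1) ^ j)
    have h8 : deriv (fun z => (-1) ^ j * Dj j z) s = (-1) ^ j * (-((j + 1).factorial : ℂ) / (s - 1) ^ (j + 1 + 1) + -Rj (j + 1) s) := by
      apply HasDerivAt.deriv
      exact h7
    rw [h8, ← mul_assoc, pow_succ]
    unfold Dj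
    have : ((-1 : ℂ)) ^ j * (-1) * (-1) ^ j = -1 := by
      rw [mul_right_comm, ← mul_pow]; simp
    rw [this]
    ring

theorem Dj_lseries (j : ℕ) {s : ℂ} (hs : 1 < s.re) :
    LSeriesHasSum (fun n => (((Real.log n) ^ j : ℝ) : ℂ)) s (Dj j s) := by
  have hs1 : s ≠ 1 := by
    rintro rfl
    simp at hs
  have habs : LSeries.abscissaOfAbsConv (1 : ℕ → ℂ) < s.re := by
    rw [LSeries.abscissaOfAbsConv_one]
    exact_mod_cast hs
  have h1 := LSeries_iteratedDeriv j habs
  have h2 : LSeriesSummable (LSeries.logMul^[j] (1 : ℕ → ℂ)) s := by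
    apply LSeriesSummable_of_abscissaOfAbsConv_lt_re
    rwa [LSeries.absicssaOfAbsConv_logPowMul]
  have h3 : ∀ (j n : ℕ), LSeries.logMul^[j] (1 : ℕ → ℂ) n = (((Real.log n) ^ j : ℝ) : ℂ) := by
    intro j n
    induction j with
    | zero => simp
    | succ j ih =>
      rw [Function.iterate_succ', Function.comp_apply]
      show Complex.log n * LSeries.logMul^[j] (1 : ℕ → ℂ) n = _
      rw [ih, ← Complex.natCast_log]
      push_cast
      ring
  have h4 : iteratedDeriv j (LSeries 1) s = iteratedDeriv j riemannZeta s := by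
    apply Filter.EventuallyEq.iteratedDeriv_eq
    filter_upwards [(isOpen_lt continuous_const Complex.continuous_re).mem_nhds hs] with z hz
    exact LSeries_one_eq_riemannZeta hz
  have h5 : LSeries (LSeries.logMul^[j] (1 : ℕ → ℂ)) s = Dj j s := by
    rw [← Dj_eq_iter j s hs1, ← h4, h1, ← mul_assoc, ← mul_pow]
    simp
  have h6 : LSeriesHasSum (LSeries.logMul^[j] (1 : ℕ → ℂ)) s (Dj j s) := by
    rw [← h5]
    exact h2.LSeriesHasSum
  have h7 : LSeries.logMul^[j] (1 : ℕ → ℂ) = fun n : ℕ => (((Real.log n) ^ j : ℝ) : ℂ) := funext (h3 j)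
  rwa [h7] at h6

/-- pole removal -/
theorem pole (r : ℕ) : ∀ H : ℂ → ℂ, (∀ s : ℂ, 1 / 2 < s.re → DifferentiableAt ℂ H s) →
    (∀ x : ℝ, 1 < x → (H x).im = 0) →
    ∃ (a : ℕ → ℝ) (E : ℂ → ℂ), (∀ s : ℂ, 1 / 2 < s.re → DifferentiableAt ℂ E s) ∧
      ∀ s : ℂ, s ≠ 1 → H s / (s - 1) ^ r = ∑ j ∈ Finset.range r, (a j : ℂ) * Dj j s + E s := by
  induction r with
  | zero =>
    intro H hH hr
    exact ⟨fun _ => 0, H, hH, fun s hs => by simp⟩
  | succ r ih =>
    intro H hH hr
    have hU : IsOpen {s : ℂ | 1 / 2 < s.re} := isOpen_lt continuous_const Complex.continuous_re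
    have h1U : (1 : ℂ) ∈ {s : ℂ | 1 / 2 < s.re} := by simp; norm_num
    have hHon : DifferentiableOn ℂ H {s : ℂ | 1 / 2 < s.re} := fun s hs => (hH s hs).differentiableWithinAt
    -- `H 1` is real
    have hH1 : (H 1).im = 0 := by
      have hc : ContinuousAt (fun x : ℝ => (H x).im) 1 := by
        have h1 : ContinuousAt H ((1 : ℝ) : ℂ) := by
          rw [Complex.ofReal_one]
          exact (hH 1 h1U).continuousAt
        exact Complex.continuous_im.continuousAt.comp (h1.comp Complex.continuous_ofReal.continuousAt)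
      have h2 : Tendsto (fun x : ℝ => (H x).im) (𝓝[>] 1) (𝓝 ((H ((1:ℝ):ℂ)).im)) := hc.tendsto.mono_left nhdsWithin_le_nhds
      have h3 : Tendsto (fun x : ℝ => (H x).im) (𝓝[>] 1) (𝓝 0) := by
        refine tendsto_const_nhds.congr' ?_
        filter_upwards [self_mem_nhdsWithin] with x hx
        exact (hr x hx).symm
      have h4 := tendsto_nhds_unique h2 h3
      simpa using h4
    set H1 : ℂ → ℂ := dslope H 1 with hH1def
    have hH1d : ∀ s : ℂ, 1 / 2 < s.re → DifferentiableAt ℂ H1 s := by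
      have h2 : DifferentiableOn ℂ H1 {s : ℂ | 1 / 2 < s.re} :=
        (Complex.differentiableOn_dslope (hU.mem_nhds h1U)).mpr hHon
      intro s hs
      exact h2.differentiableAt (hU.mem_nhds hs)
    have hH1eq : ∀ s : ℂ, s ≠ 1 → H1 s = (H s - H 1) / (s - 1) := by
      intro s hs
      rw [hH1def, dslope_of_ne _ hs, slope_def_field]
    have hH1r : ∀ x : ℝ, 1 < x → (H1 x).im = 0 := by
      intro x hx
      have hx1 : (x : ℂ) ≠ 1 := by
        intro h
        have : x = 1 := by exact_mod_cast h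
        linarith
      rw [hH1eq _ hx1]
      have e : (x : ℂ) - 1 = ((x - 1 : ℝ) : ℂ) := by push_cast; ring
      rw [e, Complex.div_ofReal_im, Complex.sub_im, hr x hx, hH1]
      simp
    obtain ⟨a, E, hE, ha⟩ := ih H1 hH1d hH1r
    set c : ℝ := (H 1).re / r.factorial with hc
    have hcr : (c : ℂ) * (r.factorial : ℂ) = H 1 := by
      have h0 : ((r.factorial : ℕ) : ℂ) ≠ 0 := by exact_mod_cast r.factorial_ne_zero
      have h1 : H 1 = ((H 1).re : ℂ) := by
        apply Complex.ext
        · simp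
        · simp [hH1]
      rw [hc]
      push_cast
      rw [div_mul_cancel₀ _ h0]
      exact h1.symm
    refine ⟨fun j => if j = r then c else a j, fun s => E s - c * Rj r s, fun s hs => ?_, fun s hs => ?_⟩
    · exact (hE s hs).sub ((Rj_diff r s).const_mul _)
    · have hne : s - 1 ≠ 0 := sub_ne_zero.2 hs
      rw [Finset.sum_range_succ]
      have e1 : ∑ j ∈ Finset.range r, (((if j = r then c else a j : ℝ)) : ℂ) * Dj j s =
          ∑ j ∈ Finset.range r, (a j : ℂ) * Dj j s := by
        apply Finset.sum_congr rfl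
        intro j hj
        rw [if_neg (Finset.mem_range.1 hj).ne]
      show H s / (s - 1) ^ (r + 1) = _ + ((if r = r then c else a r : ℝ) : ℂ) * Dj r s + (E s - c * Rj r s)
      rw [e1, if_pos rfl]
      have h2 := ha s hs
      rw [hH1eq s hs] at h2
      have h3 : H s / (s - 1) ^ (r + 1) = H 1 / (s - 1) ^ (r + 1) + (H s - H 1) / (s - 1) / (s - 1) ^ r := by
        field_simp
        ring
      rw [h3, h2]
      have h4 : (c : ℂ) * Dj r s = H 1 / (s - 1) ^ (r + 1) + c * Rj r s := by
        unfold Dj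
        rw [mul_add, ← hcr]
        ring
      rw [h4]
      ring

end Pool.Agent.H16.DM
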