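import Pool.Agent.H16.DM.D2

set_option autoImplicit false

/-!
# Growth under the Lindelöf hypothesis
-/

namespace Pool.Agent.H16.DM

open Complex Metric Set Filter Topology
open Pool.Agent.W173.OS Pool.Agent.H295R2

theorem Zs_LH (h : LH) {ε : ℝ} (hε : 0 < ε) : ∃ C : ℝ, 0 < C ∧ ∀ s : ℂ, 1 / 2 ≤ s.re → s.re ≤ 4 →
    ‖Zs s‖ ≤ C * (1 + |s.im|) ^ (1 + ε) := by
  obtain ⟨C, hC⟩ := h ε hε
  obtain ⟨K, hK1, hK⟩ := zeta_bounds (a := 2) (by norm_num)
  have hne : ∀ s : ℂ, s.re ≠ 1 → s ≠ 1 := by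
    rintro s hs rfl
    simp at hs
  obtain ⟨D, hD0, hD⟩ := pl_interp (f := Zs) Zs_differentiable (a := 1 / 2) (b := 4) (A := 1 + ε) (B := 1 + ε)
    (Ca := C) (Cb := 3 * K) (K := 180) (by norm_num) (by linarith) (by linarith)
    (fun s h1 h2 => by
      have h3 := Zs_norm_le (s := s) (by linarith)
      have h4 : ‖s‖ ≤ 4 + |s.im| := by
        have := Complex.norm_le_abs_re_add_abs_im s
        rw [abs_of_nonneg (by linarith : 0 ≤ s.re)] at this
        linarith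
      have h5 : (1 + |s.im|) ^ (2:ℝ) = (1 + |s.im|) ^ 2 := by norm_num
      have h6 : 0 ≤ |s.im| := abs_nonneg _
      have h7 : 0 ≤ ‖s‖ := norm_nonneg _
      rw [h5]
      nlinarith)
    (fun s hs => by
      have h1 := hC s.im
      have h2 : (1 / 2 : ℂ) + (s.im : ℂ) * Complex.I = s := by
        have := line_eq hs
        rw [this]
        push_cast
        simp
      rw [h2] at h1
      rw [← Zs_eq (hne s (by rw [hs]; norm_num)), norm_mul]
      have h3 : ‖s - 1‖ ≤ 1 + |s.im| := by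
        have := Complex.norm_le_abs_re_add_abs_im (s - 1)
        rw [Complex.sub_re, Complex.sub_im, hs, Complex.one_re, Complex.one_im, sub_zero] at this
        have e : |(1 / 2 - 1 : ℝ)| = 1 / 2 := by rw [abs_of_neg (by norm_num)]; norm_num
        rw [e] at this
        linarith
      have h4 : 0 < 1 + |s.im| := by positivity
      calc ‖s - 1‖ * ‖riemannZeta s‖ ≤ (1 + |s.im|) * (C * (1 + |s.im|) ^ ε) := by gcongr
        _ = C * (1 + |s.im|) ^ (1 + ε) := by rw [Real.rpow_add h4, Real.rpow_one]; ring)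
    (fun s hs => by
      rw [← Zs_eq (hne s (by rw [hs]; norm_num)), norm_mul]
      have h3 : ‖s - 1‖ ≤ 3 * (1 + |s.im|) := by
        have := Complex.norm_le_abs_re_add_abs_im (s - 1)
        rw [Complex.sub_re, Complex.sub_im, hs, Complex.one_re, Complex.one_im, sub_zero] at this
        have e : |(4 - 1 : ℝ)| = 3 := by norm_num
        rw [e] at this
        linarith [abs_nonneg s.im]
      have h4 : 0 < 1 + |s.im| := by positivity
      have h5 := (hK s (by rw [hs]; norm_num)).1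
      have h6 := one_le_pow_abs s.im hε.le
      calc ‖s - 1‖ * ‖riemannZeta s‖ ≤ (3 * (1 + |s.im|)) * (K * (1 + |s.im|) ^ ε) := by
            gcongr
            nlinarith
        _ = 3 * K * (1 + |s.im|) ^ (1 + ε) := by rw [Real.rpow_add h4, Real.rpow_one]; ring)
  refine ⟨D, hD0, fun s h1 h2 => ?_⟩
  have h3 := hD s h1 h2
  have e : (1 + ε) * (1 - (s.re - 1 / 2) / (4 - 1 / 2)) + (1 + ε) * ((s.re - 1 / 2) / (4 - 1 / 2)) = 1 + ε := by ring
  rwa [e] at h3

theorem R0_LH (h : LH) {ε : ℝ} (hε : 0 < ε) : ∃ C : ℝ, 0 < C ∧ ∀ s : ℂ, 1 / 2 ≤ s.re → s.re ≤ 4 →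
    ‖R0 s‖ ≤ C * (1 + |s.im|) ^ ε := by
  obtain ⟨C, hC0, hC⟩ := Zs_LH h hε
  have hcomp : IsCompact (closedBall (1:ℂ) 1) := isCompact_closedBall _ _
  obtain ⟨K0, hK0⟩ := hcomp.exists_bound_of_continuousOn R0_diff.continuous.continuousOn
  refine ⟨max K0 1 + 2 * (C + 1), by positivity, fun s h1 h2 => ?_⟩
  have h6 := one_le_pow_abs s.im hε.le
  have h0 : (0:ℝ) ≤ max K0 1 := by positivity
  rcases le_or_gt ‖s - 1‖ 1 with h3 | h3
  · have h4 := hK0 s (by rw [mem_closedBall, dist_eq_norm]; exact h3)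
    calc ‖R0 s‖ ≤ K0 := h4
      _ ≤ max K0 1 := le_max_left _ _
      _ ≤ (max K0 1 + 2 * (C + 1)) * 1 := by linarith
      _ ≤ _ := by gcongr
  · have hs : s ≠ 1 := by
      rintro rfl
      simp at h3
      linarith
    rw [R0_eq hs, norm_div, div_le_iff₀ (by linarith)]
    have h4 := hC s h1 h2
    have h5 : 1 + |s.im| ≤ 2 * ‖s - 1‖ := by
      have := Complex.abs_im_le_norm (s - 1)
      rw [Complex.sub_im, Complex.one_im, sub_zero] at this
      linarith
    have h7 : 0 < 1 + |s.im| := by positivity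
    rw [Real.rpow_add h7, Real.rpow_one] at h4
    have h8 : ‖Zs s - 1‖ ≤ ‖Zs s‖ + 1 := by
      have := norm_sub_le (Zs s) 1
      simpa using this
    calc ‖Zs s - 1‖ ≤ C * ((1 + |s.im|) * (1 + |s.im|) ^ ε) + 1 := by linarith
      _ ≤ C * ((2 * ‖s - 1‖) * (1 + |s.im|) ^ ε) + ‖s - 1‖ * (1 + |s.im|) ^ ε := by
          apply add_le_add
          · gcongr
          · nlinarith
      _ = (0 + (2 * C + 1)) * (1 + |s.im|) ^ ε * ‖s - 1‖ := by ring
      _ ≤ (max K0 1 + 2 * (C + 1)) * (1 + |s.im|) ^ ε * ‖s - 1‖ := by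
          gcongr
          linarith

theorem Rj_LH (h : LH) (j : ℕ) {δ ε : ℝ} (hδ : 0 < δ) (hδ1 : δ ≤ 1) (hε : 0 < ε) : ∃ C : ℝ, 0 < C ∧ ∀ s : ℂ,
    1 / 2 + δ ≤ s.re → s.re ≤ 3 → ‖Rj j s‖ ≤ C * (1 + |s.im|) ^ ε := by
  obtain ⟨C, hC0, hC⟩ := R0_LH h hε
  refine ⟨j.factorial * (C * 2 ^ ε) / δ ^ j, by positivity, fun s h1 h2 => ?_⟩
  have h3 : ‖Rj j s‖ = ‖iteratedDeriv j R0 s‖ := by
    unfold Rj
    rw [norm_mul, norm_pow, norm_neg, norm_one, one_pow, one_mul]
  rw [h3]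
  have h4 : ∀ z ∈ sphere s δ, ‖R0 z‖ ≤ C * 2 ^ ε * (1 + |s.im|) ^ ε := by
    intro z hz
    have hz1 : ‖z - s‖ = δ := by rwa [mem_sphere, dist_eq_norm] at hz
    have h5 : |z.re - s.re| ≤ δ := by
      rw [← hz1, ← Complex.sub_re]; exact Complex.abs_re_le_norm _
    have h6 : |z.im - s.im| ≤ δ := by
      rw [← hz1, ← Complex.sub_im]; exact Complex.abs_im_le_norm _
    rw [abs_le] at h5
    have h7 := hC z (by linarith) (by linarith)
    have h8 : 1 + |z.im| ≤ 2 * (1 + |s.im|) := by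
      have h9 : |z.im| ≤ |s.im| + |z.im - s.im| := by
        have := abs_add_le s.im (z.im - s.im)
        rwa [add_sub_cancel] at this
      linarith [abs_nonneg s.im]
    calc ‖R0 z‖ ≤ C * (1 + |z.im|) ^ ε := h7
      _ ≤ C * (2 * (1 + |s.im|)) ^ ε := by gcongr
      _ = C * 2 ^ ε * (1 + |s.im|) ^ ε := by rw [Real.mul_rpow (by norm_num) (by positivity)]; ring
  have h5 := Complex.norm_iteratedDeriv_le_of_forall_mem_sphere_norm_le j hδ R0_diff.diffContOnCl h4
  calc ‖iteratedDeriv j R0 s‖ ≤ _ := h5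
    _ = _ := by ring

end Pool.Agent.H16.DM
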