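import Pool.Agent.H16.DM.D3

set_option autoImplicit false

/-!
# The Dirichlet series of the correcting factor, and the convolution
-/

namespace Pool.Agent.H16.DM

open Complex Metric Set Filter Topology
open Pool.Agent.W173.OS Pool.Agent.H295R2
open scoped ArithmeticFunction.zeta ArithmeticFunction.Moebius

/-- `∑ |g(n)| n^{-σ} < ∞` for all `σ > 1/2` -/
def GS (g : ArithmeticFunction ℝ) : Prop := ∀ σ : ℝ, 1 / 2 < σ → Summable fun n : ℕ => |g n| * (n : ℝ) ^ (-σ)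

/-- the Dirichlet series of `g` -/
noncomputable def Gser (g : ArithmeticFunction ℝ) (s : ℂ) : ℂ := LSeries (fun n => ((g n : ℝ) : ℂ)) s

theorem term_norm (g : ArithmeticFunction ℝ) (s : ℂ) (n : ℕ) :
    ‖LSeries.term (fun n => ((g n : ℝ) : ℂ)) s n‖ = |g n| * (n : ℝ) ^ (-s.re) := by
  rcases eq_or_ne n 0 with rfl | hn
  · simp
  · rw [LSeries.norm_term_eq, if_neg hn, Complex.norm_real, Real.norm_eq_abs, Real.rpow_neg (by positivity)]
    rfl

theorem term_le (g : ArithmeticFunction ℝ) {σ : ℝ} {s : ℂ} (hs : σ ≤ s.re) (n : ℕ) :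
    |g n| * (n : ℝ) ^ (-s.re) ≤ |g n| * (n : ℝ) ^ (-σ) := by
  rcases Nat.eq_zero_or_pos n with rfl | hn
  · simp
  · apply mul_le_mul_of_nonneg_left _ (abs_nonneg _)
    exact Real.rpow_le_rpow_of_exponent_le (by exact_mod_cast hn) (by linarith)

theorem Gser_summable {g : ArithmeticFunction ℝ} (hg : GS g) {s : ℂ} (hs : 1 / 2 < s.re) :
    LSeriesSummable (fun n => ((g n : ℝ) : ℂ)) s := by
  apply Summable.of_norm
  simp_rw [term_norm]
  exact hg s.re hs

theorem Gser_abs {g : ArithmeticFunction ℝ} (hg : GS g) {s : ℂ} (hs : 1 / 2 < s.re) :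
    LSeries.abscissaOfAbsConv (fun n => ((g n : ℝ) : ℂ)) < s.re := by
  have h1 : LSeries.abscissaOfAbsConv (fun n => ((g n : ℝ) : ℂ)) ≤ (((1 / 2 + s.re) / 2 : ℝ) : EReal) := by
    have h2 : LSeriesSummable (fun n => ((g n : ℝ) : ℂ)) (((1 / 2 + s.re) / 2 : ℝ) : ℂ) := by
      apply Gser_summable hg
      rw [Complex.ofReal_re]; linarith
    have := h2.abscissaOfAbsConv_le
    rwa [Complex.ofReal_re] at this
  refine h1.trans_lt ?_
  exact_mod_cast (by linarith : (1 / 2 + s.re) / 2 < s.re)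

theorem Gser_diff {g : ArithmeticFunction ℝ} (hg : GS g) {s : ℂ} (hs : 1 / 2 < s.re) : DifferentiableAt ℂ (Gser g) s :=
  (LSeries_hasDerivAt (Gser_abs hg hs)).differentiableAt

theorem Gser_bound {g : ArithmeticFunction ℝ} (hg : GS g) {σ : ℝ} (hσ : 1 / 2 < σ) : ∃ K : ℝ, 0 < K ∧ ∀ s : ℂ,
    σ ≤ s.re → ‖Gser g s‖ ≤ K := by
  refine ⟨∑' n : ℕ, |g n| * (n : ℝ) ^ (-σ) + 1, ?_, fun s hs => ?_⟩
  · have : 0 ≤ ∑' n : ℕ, |g n| * (n : ℝ) ^ (-σ) := tsum_nonneg fun n => by positivity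
    linarith
  · have h1 : Summable fun n => ‖LSeries.term (fun n => ((g n : ℝ) : ℂ)) s n‖ := by
      simp_rw [term_norm]
      exact hg s.re (by linarith)
    have h2 := norm_tsum_le_tsum_norm h1
    have h3 : ∑' n, ‖LSeries.term (fun n => ((g n : ℝ) : ℂ)) s n‖ ≤ ∑' n : ℕ, |g n| * (n : ℝ) ^ (-σ) := by
      apply Summable.tsum_le_tsum _ h1 (hg σ hσ)
      intro n
      rw [term_norm]
      exact term_le g hs n
    unfold Gser LSeries
    linarith

theorem Gser_real {g : ArithmeticFunction ℝ} (x : ℝ) : (Gser g x).im = 0 := by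
  have h1 : ∀ n, LSeries.term (fun n => ((g n : ℝ) : ℂ)) x n = ((g n * (n : ℝ) ^ (-x) : ℝ) : ℂ) := by
    intro n
    rcases eq_or_ne n 0 with rfl | hn
    · simp
    · rw [LSeries.term_of_ne_zero hn, Complex.ofReal_mul, Complex.ofReal_cpow (by positivity),
        Complex.ofReal_neg, Complex.cpow_neg]
      simp [div_eq_mul_inv]
  unfold Gser LSeries
  simp_rw [h1]
  rw [← Complex.ofReal_tsum]
  exact Complex.ofReal_im _

theorem Gser_far {g : ArithmeticFunction ℝ} (hg : GS g) (h1 : g 1 ≠ 0) : ∃ σ₁ : ℝ, 2 ≤ σ₁ ∧ ∀ s : ℂ, σ₁ ≤ s.re →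
    |g 1| / 2 ≤ ‖Gser g s‖ := by
  set K : ℝ := ∑' n : ℕ, |g n| * (n : ℝ) ^ (-(1:ℝ)) with hK
  have hsum := hg 1 (by norm_num)
  have hK0 : 0 ≤ K := tsum_nonneg fun n => by positivity
  have hg1 : 0 < |g 1| := abs_pos.2 h1
  -- tail at σ is ≤ 2^{1-σ} K
  obtain ⟨N, hN⟩ : ∃ N : ℕ, K * (1 / 2 : ℝ) ^ N ≤ |g 1| / 2 := by
    have h2 : Tendsto (fun N : ℕ => K * (1 / 2 : ℝ) ^ N) atTop (𝓝 (K * 0)) :=
      (tendsto_pow_atTop_nhds_zero_of_lt_one (by norm_num) (by norm_num)).const_mul K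
    rw [mul_zero] at h2
    have h3 := h2.eventually (gt_mem_nhds (by linarith : 0 < |g 1| / 2))
    obtain ⟨N, hN⟩ := h3.exists
    exact ⟨N, hN.le⟩
  refine ⟨N + 2, by linarith [(Nat.cast_nonneg N : (0:ℝ) ≤ N)], fun s hs => ?_⟩
  have hNr : (0:ℝ) ≤ N := Nat.cast_nonneg N
  have hsm := Gser_summable hg (s := s) (by linarith)
  have h2 : Gser g s = LSeries.term (fun n => ((g n : ℝ) : ℂ)) s 1 +
      ∑' n, ite (n = 1) 0 (LSeries.term (fun n => ((g n : ℝ) : ℂ)) s n) := by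
    unfold Gser LSeries
    exact Summable.tsum_eq_add_tsum_ite hsm 1
  have h3 : LSeries.term (fun n => ((g n : ℝ) : ℂ)) s 1 = (g 1 : ℂ) := by
    rw [LSeries.term_of_ne_zero one_ne_zero]; simp
  have h4 : ∀ n, ‖ite (n = 1) 0 (LSeries.term (fun n => ((g n : ℝ) : ℂ)) s n)‖ ≤
      (1 / 2 : ℝ) ^ N * (|g n| * (n : ℝ) ^ (-(1:ℝ))) := by
    intro n
    split_ifs with h
    · rw [norm_zero]; positivity
    · rw [term_norm]
      rcases Nat.eq_zero_or_pos n with rfl | hn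
      · simp
      · have hn2 : 2 ≤ n := by omega
        have hn2' : (2:ℝ) ≤ n := by exact_mod_cast hn2
        have h5 : (n : ℝ) ^ (-s.re) ≤ (1 / 2 : ℝ) ^ N * (n : ℝ) ^ (-(1:ℝ)) := by
          have h6 : (n : ℝ) ^ (-s.re) = (n : ℝ) ^ (-(s.re - 1)) * (n : ℝ) ^ (-(1:ℝ)) := by
            rw [← Real.rpow_add (by linarith)]; congr 1; ring
          rw [h6]
          apply mul_le_mul_of_nonneg_right _ (by positivity)
          calc (n : ℝ) ^ (-(s.re - 1)) ≤ (2:ℝ) ^ (-(s.re - 1)) :=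
                Real.rpow_le_rpow_of_nonpos (by norm_num) hn2' (by linarith)
            _ ≤ (2:ℝ) ^ (-(N:ℝ)) := Real.rpow_le_rpow_of_exponent_le (by norm_num) (by linarith)
            _ = (1 / 2 : ℝ) ^ N := by
                rw [Real.rpow_neg (by norm_num), Real.rpow_natCast, one_div, inv_pow]
        calc |g n| * (n : ℝ) ^ (-s.re) ≤ |g n| * ((1 / 2 : ℝ) ^ N * (n : ℝ) ^ (-(1:ℝ))) := by gcongr
          _ = _ := by ring
  have h5 : Summable fun n => ‖ite (n = 1) 0 (LSeries.term (fun n => ((g n : ℝ) : ℂ)) s n)‖ :=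
    Summable.of_nonneg_of_le (fun _ => norm_nonneg _) h4 (hsum.mul_left _)
  have h6 : ‖∑' n, ite (n = 1) 0 (LSeries.term (fun n => ((g n : ℝ) : ℂ)) s n)‖ ≤ |g 1| / 2 := by
    refine (norm_tsum_le_tsum_norm h5).trans ?_
    refine (Summable.tsum_le_tsum h4 h5 (hsum.mul_left _)).trans ?_
    rw [tsum_mul_left, mul_comm]
    exact hN
  rw [h2, h3]
  have h7 : ‖(g 1 : ℂ)‖ = |g 1| := by rw [Complex.norm_real, Real.norm_eq_abs]
  have h8 := norm_sub_le_norm_add (g 1 : ℂ) (∑' n, ite (n = 1) 0 (LSeries.term (fun n => ((g n : ℝ) : ℂ)) s n))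
  linarith

/-! ### Convolution -/

/-- the constant function one -/
noncomputable def zR : ArithmeticFunction ℝ := ((ArithmeticFunction.zeta : ArithmeticFunction ℕ) : ArithmeticFunction ℝ)

/-- the cast -/
noncomputable def toC (f : ArithmeticFunction ℝ) : ArithmeticFunction ℂ := ⟨fun n => ((f n : ℝ) : ℂ), by simp⟩

theorem toC_mul (f g : ArithmeticFunction ℝ) : toC (f * g) = toC f * toC g := by
  ext n
  rw [ArithmeticFunction.mul_apply]
  show (((f * g) n : ℝ) : ℂ) = ∑ x ∈ n.divisorsAntidiagonal, ((f x.1 : ℝ) : ℂ) * ((g x.2 : ℝ) : ℂ)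
  rw [ArithmeticFunction.mul_apply]
  push_cast
  rfl

theorem lser_mul {f g : ArithmeticFunction ℝ} {s a b : ℂ} (hf : LSeriesHasSum (fun n => ((f n : ℝ) : ℂ)) s a)
    (hg : LSeriesHasSum (fun n => ((g n : ℝ) : ℂ)) s b) :
    LSeriesHasSum (fun n => (((f * g) n : ℝ) : ℂ)) s (a * b) := by
  have h1 : LSeriesHasSum (fun n => toC f n) s a := hf
  have h2 : LSeriesHasSum (fun n => toC g n) s b := hg
  have h3 := ArithmeticFunction.LSeriesHasSum_mul h1 h2
  rw [← toC_mul] at h3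
  exact h3

theorem lser_zeta {s : ℂ} (hs : 1 < s.re) : LSeriesHasSum (fun n => ((zR n : ℝ) : ℂ)) s (riemannZeta s) := by
  have h := LSeriesHasSum_one hs
  refine (LSeriesHasSum_congr s _ ?_).1 h
  intro n hn
  simp [zR, hn]

theorem lser_one {s : ℂ} : LSeriesHasSum (fun n => (((1 : ArithmeticFunction ℝ) n : ℝ) : ℂ)) s 1 := by
  have h : LSeries.term (fun n => (((1 : ArithmeticFunction ℝ) n : ℝ) : ℂ)) s = fun n => if n = 1 then 1 else 0 := by
    ext n
    rcases eq_or_ne n 0 with rfl | hn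
    · simp [LSeries.term]
    · rw [LSeries.term_of_ne_zero hn, ArithmeticFunction.one_apply]
      by_cases h1 : n = 1
      · simp [h1]
      · simp [h1]
  unfold LSeriesHasSum
  rw [h]
  exact hasSum_ite_eq 1 1

theorem lser_zpow (r : ℕ) {s : ℂ} (hs : 1 < s.re) :
    LSeriesHasSum (fun n => (((zR ^ r) n : ℝ) : ℂ)) s (riemannZeta s ^ r) := by
  induction r with
  | zero => rw [pow_zero, pow_zero]; exact lser_one
  | succ r ih => rw [pow_succ, pow_succ]; exact lser_mul ih (lser_zeta hs)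

theorem lser_f {r : ℕ} {f g : ArithmeticFunction ℝ} (hfg : f = zR ^ r * g) (hg : GS g) {s : ℂ} (hs : 1 < s.re) :
    LSeriesHasSum (fun n => ((f n : ℝ) : ℂ)) s (riemannZeta s ^ r * Gser g s) := by
  rw [hfg]
  exact lser_mul (lser_zpow r hs) (Gser_summable hg (by linarith)).LSeriesHasSum

end Pool.Agent.H16.DM
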