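import Pool.Agent.H16.DM.D4

set_option autoImplicit false

/-!
# Sums of powers of logarithms, and the forward theorem
-/

namespace Pool.Agent.H16.DM

open Complex Metric Set Filter Topology
open Pool.Agent.W173.OS Pool.Agent.H295R2

/-- `p + p' = X^j` -/
noncomputable def pp : ℕ → Polynomial ℝ
  | 0 => 1
  | j + 1 => Polynomial.X ^ (j + 1) - Polynomial.C ((j : ℝ) + 1) * pp j

theorem pp_eq (j : ℕ) : pp j + Polynomial.derivative (pp j) = Polynomial.X ^ j := by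
  induction j with
  | zero => simp [pp]
  | succ j ih =>
    have h : Polynomial.derivative (pp j) = Polynomial.X ^ j - pp j := by rw [← ih]; ring
    simp only [pp, Polynomial.derivative_sub, Polynomial.derivative_mul, Polynomial.derivative_C,
      Polynomial.derivative_X_pow, h]
    simp only [Nat.cast_add, Nat.cast_one, add_tsub_cancel_right, map_add, map_one, Polynomial.C_eq_natCast]
    ring

/-- `x p(log x)` -/
noncomputable def phi (j : ℕ) (x : ℝ) : ℝ := x * (pp j).eval (Real.log x)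

theorem phi_deriv (j : ℕ) {x : ℝ} (hx : 0 < x) : HasDerivAt (phi j) ((Real.log x) ^ j) x := by
  have h1 : HasDerivAt (fun y => (pp j).eval (Real.log y)) ((Polynomial.derivative (pp j)).eval (Real.log x) * x⁻¹) x :=
    ((pp j).hasDerivAt (Real.log x)).comp x (Real.hasDerivAt_log hx.ne')
  have h2 := (hasDerivAt_id' x).fun_mul h1
  have h3 : (Real.log x) ^ j = 1 * (pp j).eval (Real.log x) + x * ((Polynomial.derivative (pp j)).eval (Real.log x) * x⁻¹) := by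
    have h4 := congrArg (Polynomial.eval (Real.log x)) (pp_eq j)
    rw [Polynomial.eval_add, Polynomial.eval_pow, Polynomial.eval_X] at h4
    rw [← h4]
    field_simp
  rw [h3]
  exact h2

theorem phi_diff (j : ℕ) {a b : ℝ} (ha : 1 ≤ a) (hab : a ≤ b) :
    (b - a) * (Real.log a) ^ j ≤ phi j b - phi j a ∧ phi j b - phi j a ≤ (b - a) * (Real.log b) ^ j := by
  rcases hab.eq_or_lt with rfl | hlt
  · simp
  obtain ⟨c, hc, hc2⟩ := exists_hasDerivAt_eq_slope (phi j) (fun x => (Real.log x) ^ j) hlt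
    (fun x hx => (phi_deriv j (by linarith [hx.1])).continuousAt.continuousWithinAt)
    (fun x hx => phi_deriv j (by linarith [hx.1]))
  have h0 : 0 < b - a := by linarith
  rw [eq_div_iff h0.ne'] at hc2
  have h1 : Real.log a ≤ Real.log c := Real.log_le_log (by linarith) hc.1.le
  have h2 : Real.log c ≤ Real.log b := Real.log_le_log (by linarith [hc.1]) hc.2.le
  have h3 : 0 ≤ Real.log a := Real.log_nonneg ha
  have h4 : (Real.log a) ^ j ≤ (Real.log c) ^ j := pow_le_pow_left₀ h3 h1 j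
  have h5 : (Real.log c) ^ j ≤ (Real.log b) ^ j := pow_le_pow_left₀ (h3.trans h1) h2 j
  constructor
  · nlinarith
  · nlinarith

theorem sum_log (j : ℕ) (N : ℕ) (hN : 1 ≤ N) :
    (∑ n ∈ Finset.Icc 1 N, (Real.log n) ^ j) - phi j N - ((Real.log (1:ℕ)) ^ j - phi j 1) ∈ Icc 0 ((Real.log N) ^ j) := by
  induction N, hN using Nat.le_induction with
  | base =>
    have h : (0:ℝ) ≤ (Real.log (1:ℕ)) ^ j := by
      rw [Nat.cast_one, Real.log_one]; positivity
    rw [Finset.Icc_self, Finset.sum_singleton, Nat.cast_one] at *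
    rw [sub_self]
    exact ⟨le_rfl, h⟩
  | succ N hN ih =>
    rw [Finset.sum_Icc_succ_top (by omega)]
    have hN1 : (1:ℝ) ≤ N := by exact_mod_cast hN
    have h1 := phi_diff j hN1 (show (N:ℝ) ≤ ((N + 1 : ℕ) : ℝ) by push_cast; linarith)
    have e : ((N + 1 : ℕ) : ℝ) - N = 1 := by push_cast; ring
    rw [e, one_mul, one_mul] at h1
    obtain ⟨i1, i2⟩ := ih
    exact ⟨by linarith [h1.2], by linarith [h1.1]⟩

theorem log_pow_le (j : ℕ) {x : ℝ} (hx : 1 ≤ x) : (Real.log x) ^ j ≤ (2 * (j + 1)) ^ j * x ^ (1 / 2 : ℝ) := by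
  have hj : (0:ℝ) < 2 * (j + 1) := by positivity
  have h1 := Real.log_le_rpow_div (by linarith : 0 ≤ x) (show (0:ℝ) < 1 / (2 * (j + 1)) by positivity)
  have h0 : 0 ≤ Real.log x := Real.log_nonneg hx
  have h2 : Real.log x ≤ (2 * (j + 1)) * x ^ (1 / (2 * (j + 1)) : ℝ) := by
    calc Real.log x ≤ _ := h1
      _ = _ := by field_simp
  calc (Real.log x) ^ j ≤ ((2 * (j + 1)) * x ^ (1 / (2 * (j + 1)) : ℝ)) ^ j := pow_le_pow_left₀ h0 h2 j
    _ = (2 * (j + 1)) ^ j * (x ^ (1 / (2 * (j + 1)) : ℝ)) ^ j := mul_pow _ _ _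
    _ = (2 * (j + 1)) ^ j * x ^ (1 / (2 * (j + 1)) * j : ℝ) := by
        rw [← Real.rpow_natCast (x ^ (1 / (2 * (j + 1)) : ℝ)) j, ← Real.rpow_mul (by linarith)]
    _ ≤ (2 * (j + 1)) ^ j * x ^ (1 / 2 : ℝ) := by
        apply mul_le_mul_of_nonneg_left _ (by positivity)
        apply Real.rpow_le_rpow_of_exponent_le hx
        rw [one_div, inv_mul_le_iff₀ hj]
        linarith

/-- `∑_{n ≤ x} (log n)^j = x p_j(log x) + O(x^{1/2})` -/
theorem sum_log_x (j : ℕ) : ∃ C : ℝ, 0 < C ∧ ∀ x : ℝ, 1 ≤ x →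
    |∑ n ∈ Finset.Icc 1 ⌊x⌋₊, (Real.log n) ^ j - phi j x| ≤ C * x ^ (1 / 2 : ℝ) := by
  set c : ℝ := (Real.log (1:ℕ)) ^ j - phi j 1 with hc
  refine ⟨|c| + 2 * (2 * (j + 1)) ^ j, by positivity, fun x hx => ?_⟩
  have hN : 1 ≤ ⌊x⌋₊ := (Nat.one_le_floor_iff x).2 hx
  have hN1 : (1:ℝ) ≤ (⌊x⌋₊ : ℝ) := by exact_mod_cast hN
  have hNx : (⌊x⌋₊ : ℝ) ≤ x := Nat.floor_le (by linarith)
  have hNx2 : x - ⌊x⌋₊ ≤ 1 := by linarith [Nat.lt_floor_add_one x]
  have h1 := sum_log j _ hN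
  have h2 := phi_diff j hN1 hNx
  have h3 := log_pow_le j hx
  have h4 : 0 ≤ (Real.log (⌊x⌋₊ : ℝ)) ^ j := pow_nonneg (Real.log_nonneg hN1) j
  have h5 : (Real.log (⌊x⌋₊ : ℝ)) ^ j ≤ (Real.log x) ^ j :=
    pow_le_pow_left₀ (Real.log_nonneg hN1) (Real.log_le_log (by linarith) hNx) j
  have h6 : 1 ≤ x ^ (1 / 2 : ℝ) := Real.one_le_rpow hx (by norm_num)
  have h7 : (x - ⌊x⌋₊) * (Real.log x) ^ j ≤ 1 * (Real.log x) ^ j := by
    apply mul_le_mul_of_nonneg_right hNx2 (h4.trans h5)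
  have h8 : 0 ≤ (x - ⌊x⌋₊) * (Real.log (⌊x⌋₊ : ℝ)) ^ j := mul_nonneg (by linarith) h4
  rw [← hc] at h1
  have h9 := abs_nonneg c
  have h10 := le_abs_self c
  have h11 := neg_abs_le c
  have h12 : |c| ≤ |c| * x ^ (1 / 2 : ℝ) := by nlinarith
  obtain ⟨i1, i2⟩ := h1
  rw [abs_le]
  constructor
  · nlinarith
  · nlinarith

end Pool.Agent.H16.DM
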