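import Pool.Agent.H16.DM.D5

set_option autoImplicit false

/-!
# The forward theorem
-/

namespace Pool.Agent.H16.DM

open Complex Metric Set Filter Topology
open Pool.Agent.W173.OS Pool.Agent.H295R2

/-- growth of the regular part `E` under LH -/
theorem E_growth (h : LH) {r : ℕ} {g : ArithmeticFunction ℝ} (hg : GS g) {a : ℕ → ℝ} {E : ℂ → ℂ}
    (hE : ∀ s : ℂ, 1 / 2 < s.re → DifferentiableAt ℂ E s)
    (hEe : ∀ s : ℂ, s ≠ 1 → riemannZeta s ^ r * Gser g s = ∑ j ∈ Finset.range r, (a j : ℂ) * Dj j s + E s)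
    {σ : ℝ} (hσ : 1 / 2 < σ) {ε : ℝ} (hε : 0 < ε) :
    ∃ C : ℝ, 0 < C ∧ ∀ s : ℂ, σ ≤ s.re → s.re ≤ 2 → ‖E s‖ ≤ C * (1 + |s.im|) ^ ε := by
  set δ : ℝ := min (σ - 1 / 2) 1 with hδ
  have hδ0 : 0 < δ := lt_min (by linarith) one_pos
  have hδ1 : δ ≤ 1 := min_le_right _ _
  have hδσ : 1 / 2 + δ ≤ σ := by linarith [min_le_left (σ - 1 / 2) 1]
  obtain ⟨KG, hKG0, hKG⟩ := Gser_bound hg hσ
  set ε' : ℝ := ε / (r + 1) with hε'
  have hr1 : (0:ℝ) < r + 1 := by positivity
  have hε'0 : 0 < ε' := by positivity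
  obtain ⟨CZ, hCZ0, hCZ⟩ := R0_LH h hε'0
  have hCj : ∀ j : ℕ, ∃ C : ℝ, 0 < C ∧ ∀ s : ℂ, 1 / 2 + δ ≤ s.re → s.re ≤ 3 → ‖Rj j s‖ ≤ C * (1 + |s.im|) ^ ε :=
    fun j => Rj_LH h j hδ0 hδ1 hε
  choose CR hCR0 hCR using hCj
  -- compact part
  have hcomp : IsCompact (closedBall (1:ℂ) 1 ∩ {s : ℂ | σ ≤ s.re}) :=
    (isCompact_closedBall _ _).inter_right (isClosed_le continuous_const Complex.continuous_re)
  have hEc : ContinuousOn E (closedBall (1:ℂ) 1 ∩ {s : ℂ | σ ≤ s.re}) := fun s hs =>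
    (hE s (lt_of_lt_of_le hσ hs.2)).continuousAt.continuousWithinAt
  obtain ⟨K0, hK0⟩ := hcomp.exists_bound_of_continuousOn hEc
  refine ⟨max K0 1 + ((1 + CZ) ^ r * KG + ∑ j ∈ Finset.range r, |a j| * (j.factorial + CR j)), ?_, fun s hs1 hs2 => ?_⟩
  · have h1 : 0 < max K0 1 := lt_max_of_lt_right one_pos
    have h2 : 0 ≤ ∑ j ∈ Finset.range r, |a j| * (j.factorial + CR j) := by
      apply Finset.sum_nonneg
      intro j _
      have := (hCR0 j).le
      positivity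
    have h3 : 0 < (1 + CZ) ^ r * KG := by positivity
    linarith
  have hsum0 : 0 ≤ ∑ j ∈ Finset.range r, |a j| * (j.factorial + CR j) := by
    apply Finset.sum_nonneg
    intro j _
    have := (hCR0 j).le
    positivity
  have h6 := one_le_pow_abs s.im hε.le
  have h0 : (0:ℝ) ≤ max K0 1 := by positivity
  have hZG0 : 0 ≤ (1 + CZ) ^ r * KG := by positivity
  rcases le_or_gt ‖s - 1‖ 1 with h3 | h3
  · have h4 := hK0 s ⟨by rw [mem_closedBall, dist_eq_norm]; exact h3, hs1⟩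
    calc ‖E s‖ ≤ K0 := h4
      _ ≤ max K0 1 := le_max_left _ _
      _ ≤ (max K0 1 + ((1 + CZ) ^ r * KG + ∑ j ∈ Finset.range r, |a j| * (j.factorial + CR j))) * 1 := by linarith
      _ ≤ _ := by gcongr
  · have hs : s ≠ 1 := by
      rintro rfl
      simp at h3
      linarith
    have h4 : E s = riemannZeta s ^ r * Gser g s - ∑ j ∈ Finset.range r, (a j : ℂ) * Dj j s := by
      rw [hEe s hs]; ring
    have h7 : ‖riemannZeta s‖ ≤ (1 + CZ) * (1 + |s.im|) ^ ε' := by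
      rw [zeta_eq hs]
      have h8 := hCZ s (by linarith) (by linarith)
      have h9 : ‖1 / (s - 1)‖ ≤ 1 := by
        rw [norm_div, norm_one, div_le_one (by linarith)]
        exact h3.le
      have h10 := one_le_pow_abs s.im hε'0.le
      calc ‖1 / (s - 1) + R0 s‖ ≤ ‖1 / (s - 1)‖ + ‖R0 s‖ := norm_add_le _ _
        _ ≤ 1 + CZ * (1 + |s.im|) ^ ε' := add_le_add h9 h8
        _ ≤ _ := by nlinarith
    have h8 : ‖riemannZeta s ^ r * Gser g s‖ ≤ (1 + CZ) ^ r * KG * (1 + |s.im|) ^ ε := by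
      rw [norm_mul, norm_pow]
      have h9 : ((1 + |s.im|) ^ ε') ^ r ≤ (1 + |s.im|) ^ ε := by
        rw [← Real.rpow_natCast ((1 + |s.im|) ^ ε') r, ← Real.rpow_mul (by positivity)]
        apply Real.rpow_le_rpow_of_exponent_le (by linarith [abs_nonneg s.im])
        rw [hε', div_mul_eq_mul_div, div_le_iff₀ hr1]
        nlinarith
      calc ‖riemannZeta s‖ ^ r * ‖Gser g s‖ ≤ ((1 + CZ) * (1 + |s.im|) ^ ε') ^ r * KG := by
            gcongr
            exact hKG s hs1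
        _ = (1 + CZ) ^ r * KG * ((1 + |s.im|) ^ ε') ^ r := by rw [mul_pow]; ring
        _ ≤ _ := by gcongr
    have h9 : ‖∑ j ∈ Finset.range r, (a j : ℂ) * Dj j s‖ ≤
        (∑ j ∈ Finset.range r, |a j| * (j.factorial + CR j)) * (1 + |s.im|) ^ ε := by
      refine (norm_sum_le _ _).trans ?_
      rw [Finset.sum_mul]
      apply Finset.sum_le_sum
      intro j _
      rw [norm_mul, Complex.norm_real, Real.norm_eq_abs, mul_assoc]
      apply mul_le_mul_of_nonneg_left _ (abs_nonneg _)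
      unfold Dj
      have h10 : ‖(j.factorial : ℂ) / (s - 1) ^ (j + 1)‖ ≤ j.factorial := by
        rw [norm_div, norm_pow, Complex.norm_natCast]
        apply div_le_self (by positivity)
        exact one_le_pow₀ h3.le
      have h11 := hCR j s (by linarith) (by linarith)
      have h12 : (0:ℝ) ≤ j.factorial := by positivity
      calc ‖(j.factorial : ℂ) / (s - 1) ^ (j + 1) + Rj j s‖ ≤ _ := norm_add_le _ _
        _ ≤ j.factorial + CR j * (1 + |s.im|) ^ ε := add_le_add h10 h11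
        _ ≤ (j.factorial + CR j) * (1 + |s.im|) ^ ε := by nlinarith
    rw [h4]
    calc ‖riemannZeta s ^ r * Gser g s - ∑ j ∈ Finset.range r, (a j : ℂ) * Dj j s‖
        ≤ ‖riemannZeta s ^ r * Gser g s‖ + ‖∑ j ∈ Finset.range r, (a j : ℂ) * Dj j s‖ := norm_sub_le _ _
      _ ≤ (1 + CZ) ^ r * KG * (1 + |s.im|) ^ ε +
        (∑ j ∈ Finset.range r, |a j| * (j.factorial + CR j)) * (1 + |s.im|) ^ ε := add_le_add h8 h9
      _ = (0 + ((1 + CZ) ^ r * KG + ∑ j ∈ Finset.range r, |a j| * (j.factorial + CR j))) * (1 + |s.im|) ^ ε := by ring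
      _ ≤ _ := by gcongr

/-- The forward theorem -/
theorem forward (h : LH) {r : ℕ} {f g : ArithmeticFunction ℝ} (hfg : f = zR ^ r * g) (hg : GS g)
    (hf : ∃ C : ℝ, ∀ n : ℕ, |f n| ≤ C * (n : ℝ) ^ (1 / 2 : ℝ)) :
    ∃ P : Polynomial ℝ, ∀ ε : ℝ, 0 < ε → ∃ C : ℝ, ∀ x : ℝ, 1 ≤ x →
      |∑ n ∈ Finset.Icc 1 ⌊x⌋₊, f n - x * P.eval (Real.log x)| ≤ C * x ^ (1 / 2 + ε) := by
  obtain ⟨Cf, hCf⟩ := hf
  have hCf0 : 0 ≤ Cf := by
    have := (abs_nonneg _).trans (hCf 1)
    simpa using this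
  have hHd : ∀ s : ℂ, 1 / 2 < s.re → DifferentiableAt ℂ (fun s => Zs s ^ r * Gser g s) s := fun s hs =>
    ((Zs_differentiable s).pow r).mul (Gser_diff hg hs)
  have hHr : ∀ x : ℝ, 1 < x → ((fun s => Zs s ^ r * Gser g s) (x : ℂ)).im = 0 := by
    intro x hx
    have hx1 : (x : ℂ) ≠ 1 := by
      intro h
      have : x = 1 := by exact_mod_cast h
      linarith
    -- `ζ` is real on `(1, ∞)`
    have hz : (riemannZeta x).im = 0 := by
      have h1 := Gser_real (g := zR) x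
      have h2 : Gser zR x = riemannZeta x := (lser_zeta (s := (x : ℂ)) (by simpa using hx)).LSeries_eq
      rwa [h2] at h1
    have hz2 : Zs x = (((x - 1) * (riemannZeta x).re : ℝ) : ℂ) := by
      rw [← Zs_eq hx1]
      apply Complex.ext
      · simp [hz]
      · simp [hz]
    have hG : Gser g x = (((Gser g x).re : ℝ) : ℂ) := by
      apply Complex.ext
      · simp
      · simp [Gser_real]
    show (Zs x ^ r * Gser g x).im = 0
    rw [hz2, hG, ← Complex.ofReal_pow, ← Complex.ofReal_mul]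
    exact Complex.ofReal_im _
  obtain ⟨a, E, hE, ha⟩ := pole r _ hHd hHr
  have hEe : ∀ s : ℂ, s ≠ 1 → riemannZeta s ^ r * Gser g s = ∑ j ∈ Finset.range r, (a j : ℂ) * Dj j s + E s := by
    intro s hs
    rw [← ha s hs]
    have hne : s - 1 ≠ 0 := sub_ne_zero.2 hs
    show _ = Zs s ^ r * Gser g s / (s - 1) ^ r
    rw [← Zs_eq hs, mul_pow]
    field_simp
  -- the sequence
  set b : ℕ → ℝ := fun n => if n = 0 then 0 else f n - ∑ j ∈ Finset.range r, a j * (Real.log n) ^ j with hb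
  have hbL : ∀ s : ℂ, 1 < s.re → LSeriesHasSum (fun n => ((b n : ℝ) : ℂ)) s (E s) := by
    intro s hs
    have hs1 : s ≠ 1 := by
      rintro rfl
      simp at hs
    have h1 := lser_f hfg hg hs
    have h2 : LSeriesHasSum (fun n => ∑ j ∈ Finset.range r, (a j : ℂ) * (((Real.log n) ^ j : ℝ) : ℂ)) s
        (∑ j ∈ Finset.range r, (a j : ℂ) * Dj j s) := by
      have h3 : ∀ j ∈ Finset.range r, LSeriesHasSum ((a j : ℂ) • fun n : ℕ => (((Real.log n) ^ j : ℝ) : ℂ)) s ((a j : ℂ) * Dj j s) :=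
        fun j _ => (Dj_lseries j hs).smul (a j : ℂ)
      have h4 := LSeriesHasSum.sum h3
      refine (LSeriesHasSum_congr s _ ?_).1 h4
      intro n hn
      simp
    have h3 := h1.sub h2
    have h4 : riemannZeta s ^ r * Gser g s - ∑ j ∈ Finset.range r, (a j : ℂ) * Dj j s = E s := by
      rw [hEe s hs1]; ring
    rw [h4] at h3
    refine (LSeriesHasSum_congr s _ ?_).1 h3
    intro n hn
    simp only [hb, if_neg hn, Pi.sub_apply]
    push_cast
    rfl
  -- the size of `b`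
  have hbn : ∀ n : ℕ, |b n| ≤ (Cf + ∑ j ∈ Finset.range r, |a j| * (2 * (j + 1)) ^ j) * (n : ℝ) ^ (1 / 2 : ℝ) := by
    intro n
    simp only [hb]
    split_ifs with hn
    · rw [abs_zero, hn]
      simp
    · have hn1 : (1:ℝ) ≤ n := by exact_mod_cast Nat.one_le_iff_ne_zero.2 hn
      calc |f n - ∑ j ∈ Finset.range r, a j * (Real.log n) ^ j|
          ≤ |f n| + |∑ j ∈ Finset.range r, a j * (Real.log n) ^ j| := abs_sub _ _
        _ ≤ Cf * (n : ℝ) ^ (1 / 2 : ℝ) + (∑ j ∈ Finset.range r, |a j| * (2 * (j + 1)) ^ j) * (n : ℝ) ^ (1 / 2 : ℝ) := by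
            apply add_le_add (hCf n)
            refine (Finset.abs_sum_le_sum_abs _ _).trans ?_
            rw [Finset.sum_mul]
            apply Finset.sum_le_sum
            intro j _
            rw [abs_mul, abs_of_nonneg (pow_nonneg (Real.log_nonneg hn1) j), mul_assoc]
            exact mul_le_mul_of_nonneg_left (log_pow_le j hn1) (abs_nonneg _)
        _ = _ := by ring
  choose CL hCL0 hCL using sum_log_x
  refine ⟨∑ j ∈ Finset.range r, Polynomial.C (a j) * pp j, fun ε hε => ?_⟩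
  set σ : ℝ := min (1 / 2 + ε) 2 with hσ
  have hσ1 : 1 / 2 < σ := lt_min (by linarith) (by norm_num)
  obtain ⟨C, hC0, hC⟩ := sum_bound (θ := 1 / 2) (σ := σ) le_rfl hE
    (fun σ' hσ' ε' hε' => E_growth h hg hE hEe hσ' hε') hbL hbn hσ1 (min_le_right _ _)
  refine ⟨C + ∑ j ∈ Finset.range r, |a j| * CL j, fun x hx => ?_⟩
  have h1 := hC x hx
  have h2 : ∑ n ∈ Finset.Icc 1 ⌊x⌋₊, f n = sumX b x + ∑ j ∈ Finset.range r, a j * ∑ n ∈ Finset.Icc 1 ⌊x⌋₊, (Real.log n) ^ j := by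
    unfold sumX
    simp_rw [Finset.mul_sum]
    rw [Finset.sum_comm, ← Finset.sum_add_distrib]
    apply Finset.sum_congr rfl
    intro n hn
    have hn0 : n ≠ 0 := by have := (Finset.mem_Icc.1 hn).1; omega
    simp only [hb, if_neg hn0]
    ring
  have h3 : x * (∑ j ∈ Finset.range r, Polynomial.C (a j) * pp j).eval (Real.log x) = ∑ j ∈ Finset.range r, a j * phi j x := by
    rw [Polynomial.eval_finset_sum, Finset.mul_sum]
    apply Finset.sum_congr rfl
    intro j _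
    unfold phi
    rw [Polynomial.eval_mul, Polynomial.eval_C]
    ring
  rw [h2, h3]
  have e1 : sumX b x + ∑ j ∈ Finset.range r, a j * ∑ n ∈ Finset.Icc 1 ⌊x⌋₊, (Real.log n) ^ j - ∑ j ∈ Finset.range r, a j * phi j x =
      sumX b x + ∑ j ∈ Finset.range r, a j * (∑ n ∈ Finset.Icc 1 ⌊x⌋₊, (Real.log n) ^ j - phi j x) := by
    simp_rw [mul_sub]
    rw [Finset.sum_sub_distrib]
    ring
  rw [e1]
  have h4 : x ^ σ ≤ x ^ (1 / 2 + ε) := Real.rpow_le_rpow_of_exponent_le hx (min_le_left _ _)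
  have h5 : x ^ (1 / 2 : ℝ) ≤ x ^ (1 / 2 + ε) := Real.rpow_le_rpow_of_exponent_le hx (by linarith)
  calc |sumX b x + ∑ j ∈ Finset.range r, a j * (∑ n ∈ Finset.Icc 1 ⌊x⌋₊, (Real.log n) ^ j - phi j x)|
      ≤ |sumX b x| + |∑ j ∈ Finset.range r, a j * (∑ n ∈ Finset.Icc 1 ⌊x⌋₊, (Real.log n) ^ j - phi j x)| := abs_add_le _ _
    _ ≤ C * x ^ (1 / 2 + ε) + (∑ j ∈ Finset.range r, |a j| * CL j) * x ^ (1 / 2 + ε) := by
        apply add_le_add
        · exact h1.trans (mul_le_mul_of_nonneg_left h4 hC0.le)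
        · refine (Finset.abs_sum_le_sum_abs _ _).trans ?_
          rw [Finset.sum_mul]
          apply Finset.sum_le_sum
          intro j _
          rw [abs_mul, mul_assoc]
          apply mul_le_mul_of_nonneg_left _ (abs_nonneg _)
          exact (hCL j x hx).trans (mul_le_mul_of_nonneg_left h5 (hCL0 j).le)
    _ = _ := by ring

end Pool.Agent.H16.DM
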