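import Pool.Agent.H16.DM.D6
import Pool.Agent.H16.DM.D1

set_option autoImplicit false

/-!
# Preparations for the converse
-/

namespace Pool.Agent.H16.DM

open Complex Metric Set Filter Topology
open Pool.Agent.W173.OS Pool.Agent.H295R2

/-! ### every polynomial is a combination of the `pp j` -/

theorem X_pow_eq (i : ℕ) : (Polynomial.X : Polynomial ℝ) ^ i ∈ Submodule.span ℝ (Set.range pp) := by
  cases i with
  | zero => exact Submodule.subset_span ⟨0, by simp [pp]⟩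
  | succ i =>
    have h : (Polynomial.X : Polynomial ℝ) ^ (i + 1) = pp (i + 1) + ((i : ℝ) + 1) • pp i := by
      simp only [pp, Polynomial.smul_eq_C_mul]
      ring
    rw [h]
    exact Submodule.add_mem _ (Submodule.subset_span ⟨i + 1, rfl⟩)
      (Submodule.smul_mem _ _ (Submodule.subset_span ⟨i, rfl⟩))

theorem mem_span (P : Polynomial ℝ) : P ∈ Submodule.span ℝ (Set.range pp) := by
  induction P using Polynomial.induction_on' with
  | add p q hp hq => exact Submodule.add_mem _ hp hq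
  | monomial n a =>
    rw [← Polynomial.C_mul_X_pow_eq_monomial, ← Polynomial.smul_eq_C_mul]
    exact Submodule.smul_mem _ _ (X_pow_eq n)

theorem poly_comb (P : Polynomial ℝ) : ∃ c : ℕ →₀ ℝ, ∀ x : ℝ, x * P.eval (Real.log x) = ∑ j ∈ c.support, c j * phi j x := by
  obtain ⟨c, hc⟩ := (Finsupp.mem_span_range_iff_exists_finsupp).1 (mem_span P)
  refine ⟨c, fun x => ?_⟩
  rw [← hc, Finsupp.sum, Polynomial.eval_finsetSum, Finset.mul_sum]
  apply Finset.sum_congr rfl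
  intro j _
  unfold phi
  rw [Polynomial.eval_smul, smul_eq_mul]
  ring

/-! ### unconditional growth -/

theorem R0_growth : ∃ C : ℝ, 0 < C ∧ ∀ s : ℂ, 1 / 2 ≤ s.re → ‖R0 s‖ ≤ C * (1 + ‖s‖) := by
  have hcomp : IsCompact (closedBall (1:ℂ) 1) := isCompact_closedBall _ _
  obtain ⟨K0, hK0⟩ := hcomp.exists_bound_of_continuousOn R0_diff.continuous.continuousOn
  refine ⟨max K0 1 + 20, by positivity, fun s h1 => ?_⟩
  have h0 : (0:ℝ) ≤ max K0 1 := by positivity
  have hn : 0 ≤ ‖s‖ := norm_nonneg _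
  rcases le_or_gt ‖s - 1‖ 1 with h3 | h3
  · have h4 := hK0 s (by rw [mem_closedBall, dist_eq_norm]; exact h3)
    have h5 := le_max_left K0 1
    nlinarith
  · have hs : s ≠ 1 := by
      rintro rfl
      simp at h3
      linarith
    rw [R0_eq hs, norm_div, div_le_iff₀ (by linarith)]
    have h4 := Zs_norm_le (s := s) (by linarith)
    have h8 : ‖Zs s - 1‖ ≤ ‖Zs s‖ + 1 := by
      have := norm_sub_le (Zs s) 1
      simpa using this
    have h9 : ‖s‖ ≤ ‖s - 1‖ + 1 := by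
      have := norm_add_le (s - 1) 1
      simpa using this
    have h10 : ‖s‖ + 1 ≤ 3 * ‖s - 1‖ := by linarith
    have h11 : 5 * (‖s‖ + 1) ^ 2 + 1 ≤ 16 * (‖s‖ + 1) * ‖s - 1‖ := by
      nlinarith
    calc ‖Zs s - 1‖ ≤ 5 * (‖s‖ + 1) ^ 2 + 1 := by linarith
      _ ≤ 16 * (‖s‖ + 1) * ‖s - 1‖ := h11
      _ ≤ (max K0 1 + 20) * (1 + ‖s‖) * ‖s - 1‖ := by
          apply mul_le_mul_of_nonneg_right _ (by linarith)
          nlinarith

theorem Rj_growth (j : ℕ) {δ : ℝ} (hδ : 0 < δ) (hδ1 : δ ≤ 1) : ∃ C : ℝ, 0 < C ∧ ∀ s : ℂ,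
    1 / 2 + δ ≤ s.re → ‖Rj j s‖ ≤ C * (1 + ‖s‖) := by
  obtain ⟨C, hC0, hC⟩ := R0_growth
  refine ⟨j.factorial * (C * 2) / δ ^ j, by positivity, fun s h1 => ?_⟩
  have h3 : ‖Rj j s‖ = ‖iteratedDeriv j R0 s‖ := by
    unfold Rj
    rw [norm_mul, norm_pow, norm_neg, norm_one, one_pow, one_mul]
  rw [h3]
  have h4 : ∀ z ∈ sphere s δ, ‖R0 z‖ ≤ C * 2 * (1 + ‖s‖) := by
    intro z hz
    have hz1 : ‖z - s‖ = δ := by rwa [mem_sphere, dist_eq_norm] at hz
    have h5 : |z.re - s.re| ≤ δ := by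
      rw [← hz1, ← Complex.sub_re]; exact Complex.abs_re_le_norm _
    rw [abs_le] at h5
    have h7 := hC z (by linarith)
    have h8 : ‖z‖ ≤ ‖s‖ + δ := by
      have := norm_add_le s (z - s)
      rw [add_sub_cancel, hz1] at this
      exact this
    have hn : 0 ≤ ‖s‖ := norm_nonneg _
    calc ‖R0 z‖ ≤ C * (1 + ‖z‖) := h7
      _ ≤ C * (2 * (1 + ‖s‖)) := by gcongr; linarith
      _ = _ := by ring
  have h5 := Complex.norm_iteratedDeriv_le_of_forall_mem_sphere_norm_le j hδ R0_diff.diffContOnCl h4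
  calc ‖iteratedDeriv j R0 s‖ ≤ _ := h5
    _ = _ := by ring

theorem Dj_growth (j : ℕ) {δ : ℝ} (hδ : 0 < δ) (hδ1 : δ ≤ 1) : ∃ C : ℝ, 0 < C ∧ ∀ s : ℂ,
    1 / 2 + δ ≤ s.re → 1 ≤ s.im → ‖Dj j s‖ ≤ C * (1 + ‖s‖) := by
  obtain ⟨C, hC0, hC⟩ := Rj_growth j hδ hδ1
  refine ⟨j.factorial + C, by positivity, fun s h1 h2 => ?_⟩
  have h3 : 1 ≤ ‖s - 1‖ := by
    have := Complex.abs_im_le_norm (s - 1)
    rw [Complex.sub_im, Complex.one_im, sub_zero, abs_of_nonneg (by linarith)] at this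
    linarith
  unfold Dj
  have h10 : ‖(j.factorial : ℂ) / (s - 1) ^ (j + 1)‖ ≤ j.factorial := by
    rw [norm_div, norm_pow, Complex.norm_natCast]
    apply div_le_self (by positivity)
    exact one_le_pow₀ h3
  have h11 := hC s h1
  have h12 : (0:ℝ) ≤ j.factorial := by positivity
  have hn : 0 ≤ ‖s‖ := norm_nonneg _
  calc ‖(j.factorial : ℂ) / (s - 1) ^ (j + 1) + Rj j s‖ ≤ _ := norm_add_le _ _
    _ ≤ j.factorial + C * (1 + ‖s‖) := add_le_add h10 h11
    _ ≤ (j.factorial + C) * (1 + ‖s‖) := by nlinarith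

/-! ### the division lemma without measurability -/

theorem meas_mod {G : ℂ → ℂ} {c : ℂ} {R : ℝ} (hG : AnalyticOnNhd ℂ G (closedBall c R)) :
    ∃ G' : ℂ → ℂ, Measurable G' ∧ AnalyticOnNhd ℂ G' (closedBall c R) ∧ ∀ z ∈ closedBall c R, G' z = G z := by
  classical
  set U : Set ℂ := {z | AnalyticAt ℂ G z} with hU
  have hUo : IsOpen U := isOpen_analyticAt ℂ G
  have hsub : closedBall c R ⊆ U := fun z hz => hG z hz
  refine ⟨U.indicator G, ?_, ?_, fun z hz => indicator_of_mem (hsub hz) _⟩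
  · have hc : ContinuousOn G U := fun z hz => (AnalyticAt.continuousAt hz).continuousWithinAt
    have h := hc.measurable_piecewise (g := fun _ => (0:ℂ)) continuousOn_const hUo.measurableSet
    have e : U.piecewise G (fun _ => (0:ℂ)) = U.indicator G := by
      rw [← Set.piecewise_eq_indicator]; rfl
    rwa [e] at h
  · intro z hz
    refine (hG z hz).congr ?_
    filter_upwards [hUo.mem_nhds (hsub hz)] with w hw
    rw [indicator_of_mem hw]

theorem division' {G h : ℂ → ℂ} {c s : ℂ} {R ρ A B : ℝ} (hρ : 0 < ρ) (hsub : closedBall s ρ ⊆ ball c R)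
    (hG : AnalyticOnNhd ℂ G (closedBall c R)) (hh : AnalyticOnNhd ℂ h (closedBall c R))
    (h0 : G c ≠ 0) (hA0 : 0 ≤ A) (hA : ∀ z ∈ closedBall c R, Real.log ‖G z‖ ≤ A)
    (hB : ∀ z ∈ closedBall c R, ‖h z * G z‖ ≤ B) :
    Real.posLog ‖h s‖ ≤ Real.posLog B + R ^ 2 / ρ ^ 2 * (A - Real.log ‖G c‖) := by
  obtain ⟨G', hG'm, hG'a, hG'e⟩ := meas_mod hG
  obtain ⟨h', hh'm, hh'a, hh'e⟩ := meas_mod hh
  have hs : s ∈ closedBall c R := ball_subset_closedBall (hsub (mem_closedBall_self hρ.le))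
  have hR : 0 ≤ R := by
    have : s ∈ ball c R := hsub (mem_closedBall_self hρ.le)
    exact (pos_of_mem_ball this).le
  have hc : c ∈ closedBall c R := mem_closedBall_self hR
  have := division hρ hsub hG'a hh'a hG'm hh'm (by rwa [hG'e c hc]) hA0
    (fun z hz => by rw [hG'e z hz]; exact hA z hz)
    (fun z hz => by rw [hG'e z hz, hh'e z hz]; exact hB z hz)
  rwa [hh'e s hs, hG'e c hc] at this

end Pool.Agent.H16.DM
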