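import Pool.Agent.H16.DM.D7

set_option autoImplicit false

/-!
# The converse
-/

namespace Pool.Agent.H16.DM

open Complex Metric Set Filter Topology MeasureTheory
open Pool.Agent.W173.OS Pool.Agent.H295R2

/-- the bound for `ζ^r G` in a half plane -/
theorem zG_growth {r : ℕ} {f g : ArithmeticFunction ℝ} (hfg : f = zR ^ r * g) (hg : GS g)
    (hf : ∃ C : ℝ, ∀ n : ℕ, |f n| ≤ C * (n : ℝ) ^ (1 / 2 : ℝ))
    {P : Polynomial ℝ} {θ C₀ : ℝ} (hθ : 1 / 2 ≤ θ) (hP : ∀ x : ℝ, 1 ≤ x →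
      |∑ n ∈ Finset.Icc 1 ⌊x⌋₊, f n - x * P.eval (Real.log x)| ≤ C₀ * x ^ θ)
    {δ : ℝ} (hδ : 0 < δ) (hδ1 : δ ≤ 1) :
    ∃ B : ℝ, 1 ≤ B ∧ ∀ s : ℂ, θ + δ ≤ s.re → 1 ≤ s.im → ‖riemannZeta s ^ r * Gser g s‖ ≤ B * (1 + ‖s‖) := by
  obtain ⟨Cf, hCf⟩ := hf
  have hCf0 : 0 ≤ Cf := by
    have := (abs_nonneg _).trans (hCf 1)
    simpa using this
  obtain ⟨c, hc⟩ := poly_comb P
  set S := c.support with hS
  choose CL hCL0 hCL using sum_log_x
  -- the sequence
  set b : ℕ → ℝ := fun n => if n = 0 then 0 else f n - ∑ j ∈ S, c j * (Real.log n) ^ j with hb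
  have hbL : ∀ s : ℂ, 1 < s.re → LSeriesHasSum (fun n => ((b n : ℝ) : ℂ)) s
      (riemannZeta s ^ r * Gser g s - ∑ j ∈ S, (c j : ℂ) * Dj j s) := by
    intro s hs
    have h1 := lser_f hfg hg hs
    have h2 : LSeriesHasSum (fun n => ∑ j ∈ S, (c j : ℂ) * (((Real.log n) ^ j : ℝ) : ℂ)) s
        (∑ j ∈ S, (c j : ℂ) * Dj j s) := by
      have h3 : ∀ j ∈ S, LSeriesHasSum ((c j : ℂ) • fun n : ℕ => (((Real.log n) ^ j : ℝ) : ℂ)) s ((c j : ℂ) * Dj j s) :=
        fun j _ => (Dj_lseries j hs).smul (c j : ℂ)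
      have h4 := LSeriesHasSum.sum h3
      refine (LSeriesHasSum_congr s _ ?_).1 h4
      intro n hn
      simp
    have h3 := h1.sub h2
    refine (LSeriesHasSum_congr s _ ?_).1 h3
    intro n hn
    simp only [hb, if_neg hn, Pi.sub_apply]
    push_cast
    rfl
  have hbn : ∀ n : ℕ, |b n| ≤ (Cf + ∑ j ∈ S, |c j| * (2 * (j + 1)) ^ j) * (n : ℝ) ^ (1 / 2 : ℝ) := by
    intro n
    simp only [hb]
    split_ifs with hn
    · rw [abs_zero, hn]
      simp
    · have hn1 : (1:ℝ) ≤ n := by exact_mod_cast Nat.one_le_iff_ne_zero.2 hn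
      calc |f n - ∑ j ∈ S, c j * (Real.log n) ^ j|
          ≤ |f n| + |∑ j ∈ S, c j * (Real.log n) ^ j| := abs_sub _ _
        _ ≤ Cf * (n : ℝ) ^ (1 / 2 : ℝ) + (∑ j ∈ S, |c j| * (2 * (j + 1)) ^ j) * (n : ℝ) ^ (1 / 2 : ℝ) := by
            apply add_le_add (hCf n)
            refine (Finset.abs_sum_le_sum_abs _ _).trans ?_
            rw [Finset.sum_mul]
            apply Finset.sum_le_sum
            intro j _
            rw [abs_mul, abs_of_nonneg (pow_nonneg (Real.log_nonneg hn1) j), mul_assoc]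
            exact mul_le_mul_of_nonneg_left (log_pow_le j hn1) (abs_nonneg _)
        _ = _ := by ring
  set Cb : ℝ := Cf + ∑ j ∈ S, |c j| * (2 * (j + 1)) ^ j with hCb
  have hCb0 : 0 ≤ Cb := by
    have := (abs_nonneg _).trans (hbn 1)
    simpa using this
  have hC₀ : 0 ≤ C₀ := by
    have := (abs_nonneg _).trans (hP 1 le_rfl)
    simpa using this
  -- the summatory function of `b`
  have hbs : ∀ x : ℝ, 1 ≤ x → |sumX b x| ≤ (C₀ + ∑ j ∈ S, |c j| * CL j) * x ^ θ := by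
    intro x hx
    have e : sumX b x = (∑ n ∈ Finset.Icc 1 ⌊x⌋₊, f n - x * P.eval (Real.log x)) -
        ∑ j ∈ S, c j * (∑ n ∈ Finset.Icc 1 ⌊x⌋₊, (Real.log n) ^ j - phi j x) := by
      rw [hc]
      unfold sumX
      simp_rw [mul_sub, Finset.mul_sum]
      rw [Finset.sum_sub_distrib, Finset.sum_comm, sub_sub, add_sub_cancel, ← Finset.sum_sub_distrib]
      apply Finset.sum_congr rfl
      intro n hn
      have hn0 : n ≠ 0 := by have := (Finset.mem_Icc.1 hn).1; omega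
      simp only [hb, if_neg hn0]
    have h5 : x ^ (1 / 2 : ℝ) ≤ x ^ θ := Real.rpow_le_rpow_of_exponent_le hx hθ
    rw [e]
    calc |(∑ n ∈ Finset.Icc 1 ⌊x⌋₊, f n - x * P.eval (Real.log x)) -
        ∑ j ∈ S, c j * (∑ n ∈ Finset.Icc 1 ⌊x⌋₊, (Real.log n) ^ j - phi j x)|
        ≤ |∑ n ∈ Finset.Icc 1 ⌊x⌋₊, f n - x * P.eval (Real.log x)| +
          |∑ j ∈ S, c j * (∑ n ∈ Finset.Icc 1 ⌊x⌋₊, (Real.log n) ^ j - phi j x)| := abs_sub _ _
      _ ≤ C₀ * x ^ θ + (∑ j ∈ S, |c j| * CL j) * x ^ θ := by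
          apply add_le_add (hP x hx)
          refine (Finset.abs_sum_le_sum_abs _ _).trans ?_
          rw [Finset.sum_mul]
          apply Finset.sum_le_sum
          intro j _
          rw [abs_mul, mul_assoc]
          apply mul_le_mul_of_nonneg_left _ (abs_nonneg _)
          exact (hCL j x hx).trans (mul_le_mul_of_nonneg_left h5 (hCL0 j).le)
      _ = _ := by ring
  set C1 : ℝ := C₀ + ∑ j ∈ S, |c j| * CL j with hC1
  have hC10 : 0 ≤ C1 := by
    have := (abs_nonneg _).trans (hbs 1 le_rfl)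
    simpa using this
  have hnice : Nice (fun u => (sumExp b u : ℂ)) C1 θ 0 := by
    refine ⟨Complex.measurable_ofReal.comp (sumExp_measurable b), fun u => ?_, fun u hu => by
      rw [sumExp_zero b u hu, Complex.ofReal_zero]⟩
    rw [Complex.norm_real, Real.norm_eq_abs]
    rcases lt_or_ge u 0 with hu | hu
    · rw [sumExp_zero b u hu, abs_zero]; positivity
    · have := hbs _ (Real.one_le_exp_iff.mpr hu)
      rw [← Real.exp_mul, mul_comm u θ] at this
      exact this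
  -- the Dirichlet series as a Laplace transform
  have hO : (fun n => ∑ m ∈ Finset.Icc 1 n, ‖((b m : ℝ) : ℂ)‖) =O[atTop] fun n : ℕ => (n : ℝ) ^ (3 / 2 : ℝ) := by
    refine Asymptotics.IsBigO.of_bound Cb (Eventually.of_forall fun n => ?_)
    rw [Real.norm_of_nonneg (Finset.sum_nonneg fun _ _ => norm_nonneg _),
      Real.norm_of_nonneg (by positivity)]
    calc ∑ m ∈ Finset.Icc 1 n, ‖((b m : ℝ) : ℂ)‖ ≤ ∑ m ∈ Finset.Icc 1 n, Cb * (n:ℝ) ^ (1 / 2 : ℝ) := by
          refine Finset.sum_le_sum fun m hm => ?_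
          rw [Complex.norm_real, Real.norm_eq_abs]
          refine (hbn m).trans (mul_le_mul_of_nonneg_left ?_ hCb0)
          refine Real.rpow_le_rpow (Nat.cast_nonneg m) ?_ (by norm_num)
          exact_mod_cast (Finset.mem_Icc.mp hm).2
      _ = Cb * (n:ℝ) ^ (3 / 2 : ℝ) := by
        rw [Finset.sum_const, Nat.card_Icc, nsmul_eq_mul, add_tsub_cancel_right]
        rcases Nat.eq_zero_or_pos n with rfl | hn
        · simp [Real.zero_rpow (show (3 / 2 : ℝ) ≠ 0 by norm_num)]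
        · have hn0 : (0:ℝ) < n := by exact_mod_cast hn
          have : (n:ℝ) ^ (3 / 2 : ℝ) = n * (n:ℝ) ^ (1 / 2 : ℝ) := by
            rw [show (3 / 2 : ℝ) = 1 + 1 / 2 by norm_num, Real.rpow_add hn0, Real.rpow_one]
          rw [this]; ring
  have hfar : ∀ s : ℂ, 2 < s.re → riemannZeta s ^ r * Gser g s - ∑ j ∈ S, (c j : ℂ) * Dj j s =
      s * Lap (fun u => (sumExp b u : ℂ)) s := by
    intro s hs
    rw [← lap_sumExp b (r := 3 / 2) (by norm_num) (by linarith) hO]
    exact (hbL s (by linarith)).LSeries_eq.symm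
  -- analytic continuation
  set U : Set ℂ := {s : ℂ | θ < s.re ∧ 0 < s.im} with hU
  have hUconv : Convex ℝ U := (convex_halfSpace_re_gt θ).inter (convex_halfSpace_im_gt 0)
  have hne : ∀ s ∈ U, s ≠ 1 := by
    rintro s ⟨_, hs⟩ rfl
    simp at hs
  have hUo : IsOpen U := (isOpen_lt continuous_const Complex.continuous_re).inter
    (isOpen_lt continuous_const Complex.continuous_im)
  have hA1 : AnalyticOnNhd ℂ (fun s => riemannZeta s ^ r * Gser g s - ∑ j ∈ S, (c j : ℂ) * Dj j s) U := by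
    apply DifferentiableOn.analyticOnNhd _ hUo
    intro s hs
    apply DifferentiableAt.differentiableWithinAt
    have h1 := (differentiableAt_riemannZeta (hne s hs)).pow r
    have h2 : DifferentiableAt ℂ (Gser g) s := Gser_diff hg (lt_of_le_of_lt hθ hs.1)
    have h3 : DifferentiableAt ℂ (fun s => ∑ j ∈ S, (c j : ℂ) * Dj j s) s := by
      apply DifferentiableAt.fun_sum
      intro j _
      exact (Dj_diffAt j (hne s hs)).const_mul _
    exact (h1.mul h2).sub h3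
  have hA2 : AnalyticOnNhd ℂ (fun s => s * Lap (fun u => (sumExp b u : ℂ)) s) U := by
    intro s hs
    exact analyticAt_id.mul ((Nice.lint hnice).analyticOnNhd s hs.1)
  have hθ1 : ∀ s : ℂ, s ∈ U → riemannZeta s ^ r * Gser g s - ∑ j ∈ S, (c j : ℂ) * Dj j s =
      s * Lap (fun u => (sumExp b u : ℂ)) s := by
    set z₀ : ℂ := ((max θ 2 + 1 : ℝ) : ℂ) + I with hz₀
    have hre : z₀.re = max θ 2 + 1 := by rw [hz₀]; simp
    have him : z₀.im = 1 := by rw [hz₀]; simp
    have hz : z₀ ∈ U := by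
      refine ⟨?_, ?_⟩
      · rw [hre]; linarith [le_max_left θ 2]
      · rw [him]; exact one_pos
    have h3 := hA1.eqOn_of_preconnected_of_eventuallyEq hA2 hUconv.isPreconnected hz (by
      have h4 : 2 < z₀.re := by rw [hre]; linarith [le_max_right θ 2]
      filter_upwards [(isOpen_lt continuous_const Complex.continuous_re).mem_nhds h4] with z hz
      exact hfar z hz)
    intro s hs
    exact h3 hs
  have hDg : ∀ j : ℕ, ∃ C : ℝ, 0 < C ∧ ∀ s : ℂ, 1 / 2 + δ ≤ s.re → 1 ≤ s.im → ‖Dj j s‖ ≤ C * (1 + ‖s‖) :=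
    fun j => Dj_growth j hδ hδ1
  choose CD hCD0 hCD using hDg
  refine ⟨1 + C1 / δ + ∑ j ∈ S, |c j| * CD j, ?_, fun s hs1 hs2 => ?_⟩
  · have h1 : 0 ≤ C1 / δ := by positivity
    have h2 : 0 ≤ ∑ j ∈ S, |c j| * CD j := Finset.sum_nonneg fun j _ => by
      have := (hCD0 j).le
      positivity
    linarith
  · have hsU : s ∈ U := ⟨by linarith, by linarith⟩
    have h1 := hθ1 s hsU
    have h2 : riemannZeta s ^ r * Gser g s = s * Lap (fun u => (sumExp b u : ℂ)) s + ∑ j ∈ S, (c j : ℂ) * Dj j s := by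
      rw [← h1]; ring
    have h3 := Nice.norm_Lap_le hnice (s := s) (by linarith)
    rw [mul_zero, Real.exp_zero, mul_one] at h3
    have h4 : C1 / (s.re - θ) ≤ C1 / δ := by
      apply div_le_div_of_nonneg_left hC10 hδ
      linarith
    have hn : 0 ≤ ‖s‖ := norm_nonneg _
    have h5 : ‖∑ j ∈ S, (c j : ℂ) * Dj j s‖ ≤ (∑ j ∈ S, |c j| * CD j) * (1 + ‖s‖) := by
      refine (norm_sum_le _ _).trans ?_
      rw [Finset.sum_mul]
      apply Finset.sum_le_sum
      intro j _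
      rw [norm_mul, Complex.norm_real, Real.norm_eq_abs, mul_assoc]
      apply mul_le_mul_of_nonneg_left _ (abs_nonneg _)
      exact hCD j s (by linarith) hs2
    have h6 : 0 ≤ C1 / δ := by positivity
    rw [h2]
    calc ‖s * Lap (fun u => (sumExp b u : ℂ)) s + ∑ j ∈ S, (c j : ℂ) * Dj j s‖
        ≤ ‖s‖ * ‖Lap (fun u => (sumExp b u : ℂ)) s‖ + ‖∑ j ∈ S, (c j : ℂ) * Dj j s‖ := by
          rw [← norm_mul]; exact norm_add_le _ _
      _ ≤ ‖s‖ * (C1 / δ) + (∑ j ∈ S, |c j| * CD j) * (1 + ‖s‖) := by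
          apply add_le_add _ h5
          exact mul_le_mul_of_nonneg_left (h3.trans h4) hn
      _ ≤ (1 + C1 / δ + ∑ j ∈ S, |c j| * CD j) * (1 + ‖s‖) := by nlinarith

/-- the zeta function to the right of `θ` -/
theorem converse {r : ℕ} (hr : 1 ≤ r) {f g : ArithmeticFunction ℝ} (hfg : f = zR ^ r * g) (hg : GS g) (hg1 : g 1 ≠ 0)
    (hf : ∃ C : ℝ, ∀ n : ℕ, |f n| ≤ C * (n : ℝ) ^ (1 / 2 : ℝ))
    {P : Polynomial ℝ} {θ C₀ : ℝ} (hθ : 1 / 2 ≤ θ) (hP : ∀ x : ℝ, 1 ≤ x →
      |∑ n ∈ Finset.Icc 1 ⌊x⌋₊, f n - x * P.eval (Real.log x)| ≤ C₀ * x ^ θ)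
    {σ : ℝ} (hσ : θ < σ) :
    ∃ C T₀ : ℝ, 0 < C ∧ ∀ t : ℝ, T₀ ≤ t → ‖riemannZeta (σ + t * I)‖ ≤ C * (1 + t) ^ (1 / r : ℝ) := by
  set δ : ℝ := min ((σ - θ) / 2) 1 with hδ
  have hδ0 : 0 < δ := lt_min (by linarith) one_pos
  have hδ1 : δ ≤ 1 := min_le_right _ _
  have hδσ : θ + 2 * δ ≤ σ := by linarith [min_le_left ((σ - θ) / 2) 1]
  obtain ⟨B, hB1, hB⟩ := zG_growth hfg hg hf hθ hP hδ0 hδ1
  obtain ⟨σ₀, hσ₀2, hσ₀⟩ := Gser_far hg hg1
  obtain ⟨K, hK0, hK⟩ := Gser_bound hg (σ := θ + δ) (by linarith)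
  set σ₁ : ℝ := max σ₀ (σ + 1) with hσ₁
  have hσ₁a : σ₀ ≤ σ₁ := le_max_left _ _
  have hσ₁b : σ + 1 ≤ σ₁ := le_max_right _ _
  set R : ℝ := σ₁ - θ - δ with hR
  set A : ℝ := Real.log (max K 1) with hA
  have hA0 : 0 ≤ A := Real.log_nonneg (le_max_right _ _)
  have hg1' : 0 < |g 1| / 2 := by have := abs_pos.2 hg1; linarith
  set L : ℝ := R ^ 2 / (δ / 2) ^ 2 * (A - Real.log (|g 1| / 2)) with hL
  set B' : ℝ := B * (2 + σ₁ + 2 * R) with hB'
  have hR0 : 0 < R := by linarith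
  have hB'1 : 1 ≤ B' := by
    have : 1 ≤ 2 + σ₁ + 2 * R := by linarith
    nlinarith
  refine ⟨(B' * Real.exp L) ^ (1 / r : ℝ), R + 1, by positivity, fun t ht => ?_⟩
  have ht0 : 0 < t := by linarith
  set s : ℂ := (σ : ℂ) + t * I with hs
  set c : ℂ := (σ₁ : ℂ) + t * I with hc
  have hsc : ‖s - c‖ = σ₁ - σ := by
    have : s - c = ((σ - σ₁ : ℝ) : ℂ) := by rw [hs, hc]; push_cast; ring
    rw [this, Complex.norm_real, Real.norm_eq_abs, abs_of_neg (by linarith)]
    ring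
  have hcre : c.re = σ₁ := by rw [hc]; simp
  have hcim : c.im = t := by rw [hc]; simp
  have hsub : closedBall s (δ / 2) ⊆ ball c R := by
    intro z hz
    rw [mem_closedBall, dist_eq_norm] at hz
    rw [mem_ball, dist_eq_norm]
    have := norm_add_le (z - s) (s - c)
    rw [sub_add_sub_cancel, hsc] at this
    linarith
  have hball : ∀ z ∈ closedBall c R, θ + δ ≤ z.re ∧ 1 ≤ z.im ∧ ‖z‖ ≤ σ₁ + t + R := by
    intro z hz
    rw [mem_closedBall, dist_eq_norm] at hz
    have h1 := (Complex.abs_re_le_norm (z - c)).trans hz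
    have h2 := (Complex.abs_im_le_norm (z - c)).trans hz
    rw [Complex.sub_re, hcre, abs_le] at h1
    rw [Complex.sub_im, hcim, abs_le] at h2
    refine ⟨by linarith, by linarith, ?_⟩
    have h3 := norm_add_le (z - c) c
    rw [sub_add_cancel] at h3
    have h4 : ‖c‖ ≤ σ₁ + t := by
      have := Complex.norm_le_abs_re_add_abs_im c
      rw [hcre, hcim, abs_of_nonneg (by linarith), abs_of_pos ht0] at this
      exact this
    linarith
  have hne : ∀ z ∈ closedBall c R, z ≠ 1 := by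
    rintro z hz rfl
    have := (hball 1 hz).2.1
    simp at this
    linarith
  have hGa : AnalyticOnNhd ℂ (Gser g) (closedBall c R) := by
    intro z hz
    have h1 : DifferentiableOn ℂ (Gser g) {s : ℂ | 1 / 2 < s.re} := fun s hs => (Gser_diff hg hs).differentiableWithinAt
    exact h1.analyticAt ((isOpen_lt continuous_const Complex.continuous_re).mem_nhds
      (show (1 / 2 : ℝ) < z.re by have := (hball z hz).1; linarith))
  have hza : AnalyticOnNhd ℂ (fun s => riemannZeta s ^ r) (closedBall c R) := by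
    intro z hz
    have h1 : DifferentiableOn ℂ riemannZeta {s : ℂ | s ≠ 1} := fun s hs => (differentiableAt_riemannZeta hs).differentiableWithinAt
    exact (h1.analyticAt (isOpen_ne.mem_nhds (hne z hz))).pow r
  have hcfar := hσ₀ c (by rw [hcre]; exact hσ₁a)
  have hGc : Gser g c ≠ 0 := by
    intro h
    rw [h, norm_zero] at hcfar
    linarith
  have hdiv := division' (G := Gser g) (h := fun s => riemannZeta s ^ r) (c := c) (s := s) (R := R) (ρ := δ / 2)
    (A := A) (B := B' * (1 + t)) (by linarith) hsub hGa hza hGc hA0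
    (fun z hz => by
      have h1 := hK z (hball z hz).1
      rcases eq_or_ne ‖Gser g z‖ 0 with h0 | h0
      · rw [h0, Real.log_zero]; exact hA0
      · exact Real.log_le_log (lt_of_le_of_ne (norm_nonneg _) (Ne.symm h0)) (h1.trans (le_max_left _ _)))
    (fun z hz => by
      obtain ⟨h1, h2, h3⟩ := hball z hz
      calc ‖riemannZeta z ^ r * Gser g z‖ ≤ B * (1 + ‖z‖) := hB z h1 h2
        _ ≤ B * ((2 + σ₁ + 2 * R) * (1 + t)) := by
            apply mul_le_mul_of_nonneg_left _ (by linarith)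
            nlinarith
        _ = _ := by rw [hB']; ring)
  have hpB : Real.posLog (B' * (1 + t)) = Real.log (B' * (1 + t)) := by
    apply Real.posLog_eq_log
    rw [abs_of_nonneg (by positivity)]
    nlinarith
  have hX : 0 < B' * (1 + t) * Real.exp L := by positivity
  have h1 : R ^ 2 / (δ / 2) ^ 2 * (A - Real.log ‖Gser g c‖) ≤ L := by
    rw [hL]
    apply mul_le_mul_of_nonneg_left _ (by positivity)
    have := Real.log_le_log hg1' hcfar
    linarith
  have h2 : ‖riemannZeta s‖ ^ r ≤ B' * (1 + t) * Real.exp L := by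
    rcases eq_or_ne (riemannZeta s) 0 with h0 | h0
    · rw [h0, norm_zero, zero_pow (by omega)]; exact hX.le
    · have h3 : 0 < ‖riemannZeta s‖ ^ r := pow_pos (norm_pos_iff.2 h0) r
      rw [← Real.log_le_log_iff h3 hX, Real.log_mul (by positivity) (Real.exp_pos _).ne', Real.log_exp]
      have h4 : Real.log (‖riemannZeta s‖ ^ r) ≤ Real.posLog ‖riemannZeta s ^ r‖ := by
        rw [norm_pow, Real.posLog_apply]
        exact le_max_right _ _
      rw [hpB] at hdiv
      linarith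
  have hr0 : (r : ℝ) ≠ 0 := by positivity
  calc ‖riemannZeta s‖ = (‖riemannZeta s‖ ^ r) ^ (1 / r : ℝ) := by
        rw [← Real.rpow_natCast, ← Real.rpow_mul (norm_nonneg _), mul_one_div_cancel hr0, Real.rpow_one]
    _ ≤ (B' * (1 + t) * Real.exp L) ^ (1 / r : ℝ) := Real.rpow_le_rpow (by positivity) h2 (by positivity)
    _ = (B' * Real.exp L) ^ (1 / r : ℝ) * (1 + t) ^ (1 / r : ℝ) := by
        rw [← Real.mul_rpow (by positivity) (by positivity)]; congr 1; ring

end Pool.Agent.H16.DM
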