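import Pool.Agent.H16.DM.D8

set_option autoImplicit false

/-!
# Multiplicative functions with `f(p) ≈ r`
-/

namespace Pool.Agent.H16.DM

open Filter Topology
open scoped ArithmeticFunction.Moebius

/-- `f(n) ≪ n^ε` for all `ε > 0` -/
def Small (f : ArithmeticFunction ℝ) : Prop := ∀ ε : ℝ, 0 < ε → ∃ C : ℝ, ∀ n : ℕ, |f n| ≤ C * (n : ℝ) ^ ε

/-- The class: multiplicative functions `f ≪ n^ε` with `f(p) = r + O(p^{-1/2})` at the primes -/
structure DivLike (r : ℕ) (f : ArithmeticFunction ℝ) : Prop where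
  mult : f.IsMultiplicative
  prime : ∃ C : ℝ, ∀ p : ℕ, p.Prime → |f p - r| ≤ C * (p : ℝ) ^ (-(1 / 2) : ℝ)
  small : ∀ ε : ℝ, 0 < ε → ∃ C : ℝ, ∀ n : ℕ, |f n| ≤ C * (n : ℝ) ^ ε

theorem Small.nonneg {f : ArithmeticFunction ℝ} {C ε : ℝ} (h : ∀ n : ℕ, |f n| ≤ C * (n : ℝ) ^ ε) : 0 ≤ C := by
  have := (abs_nonneg _).trans (h 1)
  simpa using this

theorem card_small (ε : ℝ) (hε : 0 < ε) : ∃ C : ℝ, 0 ≤ C ∧ ∀ n : ℕ, (n.divisors.card : ℝ) ≤ C * (n : ℝ) ^ ε := by
  set K : ℕ := ⌈(1:ℝ) / ε⌉₊ + 1 with hK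
  have hK0 : 0 < K := by omega
  have hKr : (0:ℝ) < K := by exact_mod_cast hK0
  have hkK : (1:ℝ) / K ≤ ε := by
    rw [div_le_iff₀ hKr]
    have h1 : (1:ℝ) / ε ≤ K := by
      have := Nat.le_ceil ((1:ℝ) / ε)
      rw [hK]; push_cast; linarith
    rw [div_le_iff₀ hε] at h1
    linarith
  set C : ℕ := (K ^ K * 2) ^ (2 ^ K) with hC
  refine ⟨(C:ℝ) ^ ((1:ℝ) / K), by positivity, fun n => ?_⟩
  rcases Nat.eq_zero_or_pos n with rfl | hn
  · rw [Nat.divisors_zero, Finset.card_empty, Nat.cast_zero]; positivity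
  · have h2 := Helper924.MW.Lower.card_divisors_pow_le K hK0 n hn.ne'
    have h4 : ((n.divisors.card : ℝ)) ^ K ≤ C * n := by exact_mod_cast h2
    have hd : (0:ℝ) ≤ n.divisors.card := Nat.cast_nonneg _
    have hn1 : (1:ℝ) ≤ n := by exact_mod_cast hn
    have h5 : (n.divisors.card : ℝ) = ((n.divisors.card : ℝ) ^ K) ^ ((1:ℝ) / K) := by
      rw [← Real.rpow_natCast (n.divisors.card : ℝ) K, ← Real.rpow_mul hd, mul_one_div_cancel hKr.ne',
        Real.rpow_one]
    rw [h5]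
    calc ((n.divisors.card : ℝ) ^ K) ^ ((1:ℝ) / K) ≤ ((C:ℝ) * n) ^ ((1:ℝ) / K) := by
          refine Real.rpow_le_rpow (pow_nonneg hd K) h4 (by positivity)
      _ = (C:ℝ) ^ ((1:ℝ) / K) * (n:ℝ) ^ ((1:ℝ) / K) := Real.mul_rpow (Nat.cast_nonneg _) (Nat.cast_nonneg _)
      _ ≤ (C:ℝ) ^ ((1:ℝ) / K) * (n:ℝ) ^ ε := by
        refine mul_le_mul_of_nonneg_left ?_ (by positivity)
        exact Real.rpow_le_rpow_of_exponent_le hn1 hkK

theorem Small.mul {f g : ArithmeticFunction ℝ} (hf : Small f) (hg : Small g) : Small (f * g) := by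
  intro ε hε
  obtain ⟨A, hA⟩ := hf (ε / 3) (by linarith)
  obtain ⟨B, hB⟩ := hg (ε / 3) (by linarith)
  obtain ⟨D, hD0, hD⟩ := card_small (ε / 3) (by linarith)
  have hA0 := Small.nonneg hA
  have hB0 := Small.nonneg hB
  refine ⟨D * (A * B), fun n => ?_⟩
  rcases Nat.eq_zero_or_pos n with rfl | hn
  · rw [ArithmeticFunction.map_zero, abs_zero]; positivity
  have hn0 : (0:ℝ) < n := by exact_mod_cast hn
  rw [ArithmeticFunction.mul_apply]
  have h1 : ∀ x ∈ n.divisorsAntidiagonal, |f x.1 * g x.2| ≤ A * B * ((n : ℝ) ^ (ε / 3) * (n : ℝ) ^ (ε / 3)) := by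
    intro x hx
    have hx' := Nat.mem_divisorsAntidiagonal.mp hx
    have h1 : x.1 ≤ n := Nat.le_of_dvd hn ⟨x.2, hx'.1.symm⟩
    have h2 : x.2 ≤ n := Nat.le_of_dvd hn ⟨x.1, by rw [mul_comm]; exact hx'.1.symm⟩
    have h3 : (x.1 : ℝ) ^ (ε / 3) ≤ (n : ℝ) ^ (ε / 3) :=
      Real.rpow_le_rpow (by positivity) (by exact_mod_cast h1) (by linarith)
    have h4 : (x.2 : ℝ) ^ (ε / 3) ≤ (n : ℝ) ^ (ε / 3) :=
      Real.rpow_le_rpow (by positivity) (by exact_mod_cast h2) (by linarith)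
    rw [abs_mul]
    calc |f x.1| * |g x.2| ≤ (A * (n : ℝ) ^ (ε / 3)) * (B * (n : ℝ) ^ (ε / 3)) := by
          apply mul_le_mul ((hA _).trans (mul_le_mul_of_nonneg_left h3 hA0))
            ((hB _).trans (mul_le_mul_of_nonneg_left h4 hB0)) (abs_nonneg _) (by positivity)
      _ = _ := by ring
  calc |∑ x ∈ n.divisorsAntidiagonal, f x.1 * g x.2| ≤ ∑ x ∈ n.divisorsAntidiagonal, |f x.1 * g x.2| :=
        Finset.abs_sum_le_sum_abs _ _
    _ ≤ ∑ x ∈ n.divisorsAntidiagonal, A * B * ((n : ℝ) ^ (ε / 3) * (n : ℝ) ^ (ε / 3)) := Finset.sum_le_sum h1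
    _ = (n.divisors.card : ℝ) * (A * B * ((n : ℝ) ^ (ε / 3) * (n : ℝ) ^ (ε / 3))) := by
        rw [Finset.sum_const, nsmul_eq_mul]
        congr 2
        rw [← Nat.map_div_right_divisors, Finset.card_map]
    _ ≤ (D * (n : ℝ) ^ (ε / 3)) * (A * B * ((n : ℝ) ^ (ε / 3) * (n : ℝ) ^ (ε / 3))) := by
        gcongr
        exact hD n
    _ = D * (A * B) * ((n : ℝ) ^ (ε / 3) * (n : ℝ) ^ (ε / 3) * (n : ℝ) ^ (ε / 3)) := by ring
    _ = D * (A * B) * (n : ℝ) ^ ε := by
        rw [← Real.rpow_add hn0, ← Real.rpow_add hn0]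
        congr 2; ring

/-- the Möbius function -/
noncomputable def mR : ArithmeticFunction ℝ := ((ArithmeticFunction.moebius : ArithmeticFunction ℤ) : ArithmeticFunction ℝ)

theorem small_of_le_one {f : ArithmeticFunction ℝ} (h : ∀ n, |f n| ≤ 1) : Small f := by
  intro ε hε
  refine ⟨1, fun n => ?_⟩
  rcases Nat.eq_zero_or_pos n with rfl | hn
  · rw [ArithmeticFunction.map_zero, abs_zero]; positivity
  · have hn1 : (1:ℝ) ≤ n := by exact_mod_cast hn
    rw [one_mul]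
    exact (h n).trans (Real.one_le_rpow hn1 hε.le)

theorem mR_small : Small mR := by
  apply small_of_le_one
  intro n
  have h := ArithmeticFunction.abs_moebius_le_one (n := n)
  have : |((ArithmeticFunction.moebius n : ℤ) : ℝ)| ≤ 1 := by exact_mod_cast h
  exact this

theorem one_small : Small (1 : ArithmeticFunction ℝ) := by
  apply small_of_le_one
  intro n
  rw [ArithmeticFunction.one_apply]
  split_ifs <;> simp

theorem mRpow_small (r : ℕ) : Small (mR ^ r) := by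
  induction r with
  | zero => rw [pow_zero]; exact one_small
  | succ r ih => rw [pow_succ]; exact ih.mul mR_small

theorem mRpow_mult (r : ℕ) : (mR ^ r).IsMultiplicative := by
  induction r with
  | zero => rw [pow_zero]; exact ArithmeticFunction.isMultiplicative_one
  | succ r ih => rw [pow_succ]; exact ih.mul ArithmeticFunction.isMultiplicative_moebius.intCast

theorem mul_prime (a b : ArithmeticFunction ℝ) {p : ℕ} (hp : p.Prime) : (a * b) p = a 1 * b p + a p * b 1 := by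
  rw [ArithmeticFunction.mul_apply, Nat.sum_divisorsAntidiagonal (fun x y => a x * b y), hp.divisors,
    Finset.sum_pair hp.one_lt.ne, Nat.div_one, Nat.div_self hp.pos]

theorem mRpow_prime (r : ℕ) {p : ℕ} (hp : p.Prime) : (mR ^ r) p = -r := by
  induction r with
  | zero => rw [pow_zero, ArithmeticFunction.one_apply_ne hp.one_lt.ne']; simp
  | succ r ih =>
    rw [pow_succ, mul_prime _ _ hp, ih, (mRpow_mult r).map_one]
    have h1 : mR p = -1 := by
      show ((ArithmeticFunction.moebius p : ℤ) : ℝ) = -1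
      rw [ArithmeticFunction.moebius_apply_prime hp]; simp
    have h2 : mR 1 = 1 := by
      show ((ArithmeticFunction.moebius 1 : ℤ) : ℝ) = 1
      simp
    rw [h1, h2]
    push_cast
    ring

theorem zR_mR (r : ℕ) (f : ArithmeticFunction ℝ) : f = zR ^ r * (mR ^ r * f) := by
  have h : zR * mR = 1 := ArithmeticFunction.coe_zeta_mul_coe_moebius
  rw [← mul_assoc, ← mul_pow, h, one_pow, one_mul]

/-! ### summability -/

theorem mult_summable {h : ℕ → ℝ} (h0 : ∀ n, 0 ≤ h n) (h00 : h 0 = 0) (h1 : h 1 = 1)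
    (hmul : ∀ {m n : ℕ}, Nat.Coprime m n → h (m * n) = h m * h n)
    (hp : ∀ p : ℕ, p.Prime → Summable fun n : ℕ => h (p ^ n))
    {u : ℕ → ℝ} (hu : Summable u) (hu0 : ∀ p, 0 ≤ u p)
    (hub : ∀ p : ℕ, p.Prime → ∑' n : ℕ, h (p ^ n) ≤ 1 + u p) : Summable h := by
  apply summable_of_sum_le h0 (c := Real.exp (∑' p, u p))
  intro A
  set s : Finset ℕ := Finset.range (A.sup id + 1) with hs
  have hp' : ∀ {p : ℕ}, p.Prime → Summable (fun n : ℕ ↦ ‖h (p ^ n)‖) := by
    intro p hpp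
    refine (hp p hpp).congr fun n => ?_
    rw [Real.norm_of_nonneg (h0 _)]
  obtain ⟨hS, hHS⟩ := EulerProduct.summable_and_hasSum_factoredNumbers_prod_filter_prime_tsum h1 hmul hp' s
  have hprod : (∏ p ∈ s with p.Prime, ∑' n : ℕ, h (p ^ n)) ≤ Real.exp (∑' p, u p) := by
    calc (∏ p ∈ s with p.Prime, ∑' n : ℕ, h (p ^ n)) ≤ ∏ p ∈ s with p.Prime, Real.exp (u p) := by
          apply Finset.prod_le_prod
          · intro p _
            exact tsum_nonneg fun n => h0 _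
          · intro p hps
            have := Real.add_one_le_exp (u p)
            linarith [hub p (Finset.mem_filter.1 hps).2]
      _ = Real.exp (∑ p ∈ s with p.Prime, u p) := (Real.exp_sum _ _).symm
      _ ≤ _ := Real.exp_le_exp.2 (hu.sum_le_tsum _ fun p _ => hu0 p)
  refine le_trans ?_ hprod
  -- `∑_A h ≤ ∑_{factored numbers} h`
  have hA : ∑ n ∈ A, h n = ∑ n ∈ A.erase 0, h n := by
    by_cases h0A : 0 ∈ A
    · rw [← Finset.add_sum_erase _ _ h0A, h00, zero_add]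
    · rw [Finset.erase_eq_of_notMem h0A]
  have hmem : ∀ n ∈ A.erase 0, n ∈ Nat.factoredNumbers s := by
    intro n hn
    rw [Nat.mem_factoredNumbers']
    intro p hpp hpn
    have hn0 : n ≠ 0 := (Finset.mem_erase.1 hn).1
    have hnA := (Finset.mem_erase.1 hn).2
    have h2 : n ≤ A.sup id := Finset.le_sup (f := id) hnA
    have h3 := Nat.le_of_dvd (Nat.pos_of_ne_zero hn0) hpn
    rw [hs, Finset.mem_range]
    omega
  rw [hA]
  have h4 : ∑ n ∈ A.erase 0, h n = ∑ n ∈ (A.erase 0).subtype (· ∈ Nat.factoredNumbers s), h n := by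
    rw [Finset.sum_subtype_of_mem _ hmem]
  rw [h4]
  refine sum_le_hasSum _ (fun n _ => h0 _) hHS

theorem GS_of {r : ℕ} {f : ArithmeticFunction ℝ} (hf : DivLike r f) : GS (mR ^ r * f) := by
  set g := mR ^ r * f with hg
  have hgm : g.IsMultiplicative := (mRpow_mult r).mul hf.mult
  have hgs : Small g := (mRpow_small r).mul hf.small
  have hgp : ∀ p : ℕ, p.Prime → g p = f p - r := by
    intro p hp
    rw [hg, mul_prime _ _ hp, (mRpow_mult r).map_one, mRpow_prime r hp, hf.mult.map_one]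
    ring
  intro σ hσ
  obtain ⟨C1, hC1⟩ := hf.prime
  have hC10 : 0 ≤ C1 := by
    have h2 := (abs_nonneg _).trans (hC1 2 Nat.prime_two)
    have h3 : (0:ℝ) < ((2:ℕ):ℝ) ^ (-(1 / 2) : ℝ) := by positivity
    exact nonneg_of_mul_nonneg_left h2 h3
  set η : ℝ := (σ - 1 / 2) / 2 with hη
  have hη0 : 0 < η := by rw [hη]; linarith
  obtain ⟨C2, hC2⟩ := hgs η hη0
  have hC20 := Small.nonneg hC2
  set τ : ℝ := σ - η with hτ
  have hτ1 : 1 / 2 < τ := by rw [hτ, hη]; linarith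
  -- the values at prime powers
  have hpp : ∀ p : ℕ, p.Prime → ∀ n : ℕ, |g (p ^ n)| * ((p ^ n : ℕ) : ℝ) ^ (-σ) ≤ C2 * ((p : ℝ) ^ (-τ)) ^ n := by
    intro p hp n
    have hp0 : (0:ℝ) < p := by exact_mod_cast hp.pos
    have h1 := hC2 (p ^ n)
    calc |g (p ^ n)| * ((p ^ n : ℕ) : ℝ) ^ (-σ) ≤ (C2 * ((p ^ n : ℕ) : ℝ) ^ η) * ((p ^ n : ℕ) : ℝ) ^ (-σ) := by gcongr
      _ = C2 * (((p ^ n : ℕ) : ℝ) ^ η * ((p ^ n : ℕ) : ℝ) ^ (-σ)) := by ring
      _ = C2 * ((p ^ n : ℕ) : ℝ) ^ (-τ) := by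
          rw [← Real.rpow_add (by exact_mod_cast pow_pos hp.pos n)]
          congr 2
          rw [hτ]; ring
      _ = C2 * ((p : ℝ) ^ (-τ)) ^ n := by
          rw [Nat.cast_pow, ← Real.rpow_natCast, ← Real.rpow_natCast, ← Real.rpow_mul hp0.le, ← Real.rpow_mul hp0.le,
            mul_comm (n : ℝ) (-τ)]
  have hq : ∀ p : ℕ, p.Prime → (p : ℝ) ^ (-τ) ≤ 3 / 4 := by
    intro p hp
    have hp2 : (2:ℝ) ≤ p := by exact_mod_cast hp.two_le
    calc (p : ℝ) ^ (-τ) ≤ (2:ℝ) ^ (-τ) := Real.rpow_le_rpow_of_nonpos (by norm_num) hp2 (by linarith)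
      _ ≤ (2:ℝ) ^ (-(1 / 2) : ℝ) := Real.rpow_le_rpow_of_exponent_le (by norm_num) (by linarith)
      _ ≤ 3 / 4 := by
          rw [Real.rpow_neg (by norm_num), ← Real.sqrt_eq_rpow, inv_le_comm₀ (by positivity) (by norm_num)]
          apply Real.le_sqrt_of_sq_le
          norm_num
  have hsp : ∀ p : ℕ, p.Prime → Summable fun n : ℕ => |g (p ^ n)| * ((p ^ n : ℕ) : ℝ) ^ (-σ) := by
    intro p hp
    apply Summable.of_nonneg_of_le (fun n => by positivity) (hpp p hp)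
    exact (summable_geometric_of_lt_one (by positivity) (lt_of_le_of_lt (hq p hp) (by norm_num))).mul_left _
  have key := mult_summable (h := fun n : ℕ => |g n| * (n : ℝ) ^ (-σ)) (fun n => by positivity) (by simp)
    (by simp [hgm.map_one]) (fun {m n} hmn => by
      rw [hgm.map_mul_of_coprime hmn, abs_mul, Nat.cast_mul, Real.mul_rpow (by positivity) (by positivity)]
      ring) hsp
    (u := fun p : ℕ => C1 * (p : ℝ) ^ (-(1 / 2 + σ)) + 4 * C2 * (p : ℝ) ^ (-(2 * τ)))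
    (by
      apply Summable.add
      · exact (Real.summable_nat_rpow.2 (by linarith)).mul_left _
      · exact (Real.summable_nat_rpow.2 (by linarith)).mul_left _)
    (fun p => by positivity)
    (fun p hp => by
      have hp0 : (0:ℝ) < p := by exact_mod_cast hp.pos
      rw [← Summable.sum_add_tsum_nat_add 2 (hsp p hp), Finset.sum_range_succ, Finset.sum_range_one]
      have e0 : |g (p ^ 0)| * ((p ^ 0 : ℕ) : ℝ) ^ (-σ) = 1 := by simp [hgm.map_one]
      have e1 : |g (p ^ 1)| * ((p ^ 1 : ℕ) : ℝ) ^ (-σ) ≤ C1 * (p : ℝ) ^ (-(1 / 2 + σ)) := by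
        rw [pow_one, hgp p hp]
        calc |f p - r| * (p : ℝ) ^ (-σ) ≤ (C1 * (p : ℝ) ^ (-(1 / 2) : ℝ)) * (p : ℝ) ^ (-σ) := by
              gcongr
              exact hC1 p hp
          _ = C1 * ((p : ℝ) ^ (-(1 / 2) : ℝ) * (p : ℝ) ^ (-σ)) := by ring
          _ = _ := by
              rw [← Real.rpow_add hp0]
              congr 2; ring
      have e2 : ∑' n : ℕ, |g (p ^ (n + 2))| * ((p ^ (n + 2) : ℕ) : ℝ) ^ (-σ) ≤ 4 * C2 * (p : ℝ) ^ (-(2 * τ)) := by
        have hgeo := summable_geometric_of_lt_one (r := (p : ℝ) ^ (-τ)) (by positivity)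
          (lt_of_le_of_lt (hq p hp) (by norm_num))
        have h5 : ∀ n : ℕ, |g (p ^ (n + 2))| * ((p ^ (n + 2) : ℕ) : ℝ) ^ (-σ) ≤
            (C2 * (p : ℝ) ^ (-(2 * τ))) * ((p : ℝ) ^ (-τ)) ^ n := by
          intro n
          refine (hpp p hp (n + 2)).trans (le_of_eq ?_)
          rw [pow_add, ← Real.rpow_natCast ((p : ℝ) ^ (-τ)) 2, ← Real.rpow_mul hp0.le]
          have : -τ * ((2 : ℕ) : ℝ) = -(2 * τ) := by push_cast; ring
          rw [this]
          ring
        have h6 := Summable.tsum_le_tsum h5 ((summable_nat_add_iff 2).2 (hsp p hp)) (hgeo.mul_left _)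
        rw [tsum_mul_left, tsum_geometric_of_lt_one (by positivity) (lt_of_le_of_lt (hq p hp) (by norm_num))] at h6
        refine h6.trans ?_
        have h7 : (1 - (p : ℝ) ^ (-τ))⁻¹ ≤ 4 := by
          rw [inv_le_comm₀ (by linarith [hq p hp]) (by norm_num)]
          linarith [hq p hp]
        calc (C2 * (p : ℝ) ^ (-(2 * τ))) * (1 - (p : ℝ) ^ (-τ))⁻¹ ≤ (C2 * (p : ℝ) ^ (-(2 * τ))) * 4 := by gcongr
          _ = _ := by ring
      rw [e0]
      linarith)
  exact key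

end Pool.Agent.H16.DM
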